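import Pool.Agent.W_92892c_h19.Stmt

/-!
Definitions for the statement on multiquadratic fields (MP_92892c_nt, team V15).
-/

namespace MQV

/-- The squarefree integers (`real = false`), or the positive squarefree integers (`real = true`). -/
def Twists (real : Bool) : Set ℤ := {d | Squarefree d ∧ (real = true → 0 < d)}

/-- `C` is a coset of a finite group of square classes: with `x`, `y`, `z` it contains some `w` such that
`x y z w` is a square.  For `d ∈ C` and `K = ℚ(√(d e) : e ∈ C)` one has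
`L(E_d/K, s) = ∏_{e ∈ C} L(E_e, s)`. -/
structure IsCoset (C : Finset ℤ) : Prop where
  nonempty : C.Nonempty
  closed : ∀ x ∈ C, ∀ y ∈ C, ∀ z ∈ C, ∃ w ∈ C, IsSquare (x * y * z * w)

/-- The leading-term equality for `∏_{d ∈ C} L_d`, read literally: the derivative of order
`∑ r d` at `1`, divided by the factorial, is `∏ c d`. -/
def Literal (L : ℤ → ℂ → ℂ) (r : ℤ → ℕ) (c : ℤ → ℂ) (C : Finset ℤ) : Prop :=
  iteratedDeriv (∑ d ∈ C, r d) (fun s => ∏ d ∈ C, L d s) 1 / ((∑ d ∈ C, r d).factorial : ℂ) =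
    ∏ d ∈ C, c d

/-- The quotient of the two sides of `Literal`: the Taylor coefficient of order `∑ r d` at `1` of
`∏_{d ∈ C} L_d`, divided by `∏ c d`. -/
noncomputable def bsdQuot (L : ℤ → ℂ → ℂ) (r : ℤ → ℕ) (c : ℤ → ℂ) (C : Finset ℤ) : ℂ :=
  iteratedDeriv (∑ d ∈ C, r d) (fun s => ∏ d ∈ C, L d s) 1 / ((∑ d ∈ C, r d).factorial : ℂ) /
    ∏ d ∈ C, c d

/-- Order of vanishing at least `r` at `1`, and `r`-th Taylor coefficient `c` (so that the order is `r`
if `c ≠ 0`). -/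
def BSD (L : ℂ → ℂ) (r : ℕ) (c : ℂ) : Prop :=
  (∀ i < r, iteratedDeriv i L 1 = 0) ∧ iteratedDeriv r L 1 / (r.factorial : ℂ) = c

/-- Functional equation near the point `1`: `Λ(1 - w) = ε Λ(1 + w)`, `Λ(s) = A^s γ(s) L(s)`. -/
def FunEqNear (γ L : ℂ → ℂ) (A : ℝ) : Prop :=
  ∃ ε : ℂ, ∀ᶠ w in nhds (0 : ℂ), (A : ℂ) ^ (1 - w) * γ (1 - w) * L (1 - w) =
    ε * ((A : ℂ) ^ (1 + w) * γ (1 + w) * L (1 + w))

/-- A family of `L`-functions `L_d` with constants `c_d ≠ 0`, indexed by squarefree integers: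
functional equation with one archimedean factor `γ` and with numbers `A_d → ∞`. -/
structure TwistFamily (real : Bool) (γ : ℂ → ℂ) (L : ℤ → ℂ → ℂ) (A : ℤ → ℝ) (c : ℤ → ℂ) : Prop where
  gamma_an : AnalyticAt ℂ γ 1
  gamma_ne : γ 1 ≠ 0
  an : ∀ d ∈ Twists real, AnalyticAt ℂ (L d) 1
  pos : ∀ d ∈ Twists real, 0 < A d
  fe : ∀ d ∈ Twists real, FunEqNear γ (L d) (A d)
  fin : ∀ B : ℝ, {d ∈ Twists real | A d ≤ B}.Finite
  ne : ∀ d ∈ Twists real, c d ≠ 0

/-- The curve `y² = x³ - d² x`. -/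
def curve (d : ℤ) : WeierstrassCurve ℤ := ⟨0, 0, 0, -d ^ 2, 0⟩

/-- The group of rational points. -/
abbrev Points (W : WeierstrassCurve ℤ) : Type := (W.map (Int.castRingHom ℚ)).toAffine.Point

/-- The points with coordinates in the field `K`. -/
abbrev PointsOver (W : WeierstrassCurve ℤ) (K : Type) [Field K] : Type :=
  (W.map (Int.castRingHom K)).toAffine.Point

/-- The real multiquadratic field generated by the real numbers `x` with `x² = d e`, `e ∈ C`. -/
noncomputable def mqField (d : ℤ) (C : Finset ℤ) : IntermediateField ℚ ℝ :=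
  IntermediateField.adjoin ℚ {x : ℝ | ∃ e ∈ C, x ^ 2 = (d * e : ℤ)}

end MQV
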