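import Pool.Agent.W_92892c_h19.Brg
import Pool.Agent.W_92892c_v15.Stmt

/-!
The congruent number curves: every entire function with the Euler product has the functional equation.
-/

open Filter Topology

namespace MQV

open PPM

theorem fam_curve (k : ℕ) : curve (k : ℤ) = twist (-1) k := by
  simp [curve, twist]

theorem fam_uniq (W : WeierstrassCurve ℤ) (L L' : ℂ → ℂ) (hL : Differentiable ℂ L)
    (hL' : Differentiable ℂ L') (h : EulerProduct W L) (h' : EulerProduct W L') : L = L' := by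
  have hopen : IsOpen {s : ℂ | 3 / 2 < s.re} := isOpen_lt continuous_const Complex.continuous_re
  have h2 : (2 : ℂ) ∈ {s : ℂ | 3 / 2 < s.re} := by
    show (3 / 2 : ℝ) < (2 : ℂ).re
    norm_num
  refine AnalyticOnNhd.eq_of_eventuallyEq (𝕜 := ℂ) (z₀ := 2)
    (fun z _ => hL.analyticAt z) (fun z _ => hL'.analyticAt z) ?_
  filter_upwards [hopen.mem_nhds h2] with s hs
  exact tendsto_nhds_unique (h s hs) (h' s hs)

/-- The number `√N/(2π)` for `y² = x³ - d² x`. -/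
noncomputable def famA (d : ℤ) : ℝ := Real.sqrt (PPM.cond (-1) d.toNat) / (2 * Real.pi)

theorem fam_toNat {d : ℤ} (hd : d ∈ Twists true) :
    0 < d.toNat ∧ ((d.toNat : ℕ) : ℤ) = d ∧ Squarefree d.toNat := by
  have h0 : 0 < d := hd.2 rfl
  have h1 : ((d.toNat : ℕ) : ℤ) = d := Int.toNat_of_nonneg h0.le
  refine ⟨by omega, h1, ?_⟩
  have h2 := hd.1
  rw [← h1] at h2
  exact Int.squarefree_natCast.1 h2

theorem fam_exists (d : ℤ) (hd : d ∈ Twists true) :
    ∃ L : ℂ → ℂ, Differentiable ℂ L ∧ EulerProduct (curve d) L ∧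
      ∃ ε : ℂ, FunEq L (famA d) ε := by
  obtain ⟨h1, h2, h3⟩ := fam_toNat hd
  obtain ⟨L, hL, hE, -, ε, hF⟩ := part4 d.toNat h3 (-1) (Or.inr rfl)
  refine ⟨L, hL, ?_, ε, hF⟩
  rw [← h2, fam_curve]
  exact hE

theorem fam_fe (d : ℤ) (hd : d ∈ Twists true) (L : ℂ → ℂ) (hL : Differentiable ℂ L)
    (h : EulerProduct (curve d) L) : FunEqNear Complex.Gamma L (famA d) := by
  obtain ⟨L', hL', hE', ε, hF⟩ := fam_exists d hd
  have e : L = L' := fam_uniq _ L L' hL hL' h hE'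
  subst e
  refine ⟨ε, ?_⟩
  have hopen : IsOpen {w : ℂ | |w.re| < 1} :=
    isOpen_lt (Complex.continuous_re.abs) continuous_const
  have h0 : (0 : ℂ) ∈ {w : ℂ | |w.re| < 1} := by
    show |(0 : ℂ).re| < 1
    norm_num
  filter_upwards [hopen.mem_nhds h0] with w hw
  exact hF w hw

theorem fam_cond (k : ℕ) : 16 * k ^ 2 ≤ PPM.cond (-1) k := by
  unfold PPM.cond
  rw [if_pos rfl]
  refine Nat.mul_le_mul_right _ ?_
  split_ifs <;> norm_num

theorem famA_ge (d : ℤ) (hd : d ∈ Twists true) : (d : ℝ) / 2 ≤ famA d := by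
  obtain ⟨h1, h2, h3⟩ := fam_toNat hd
  have h4 : ((16 * d.toNat ^ 2 : ℕ) : ℝ) ≤ (PPM.cond (-1) d.toNat : ℝ) := by
    exact_mod_cast fam_cond d.toNat
  have h5 : (4 * (d.toNat : ℝ)) ≤ Real.sqrt (PPM.cond (-1) d.toNat) := by
    refine Real.le_sqrt_of_sq_le ?_
    refine le_trans (le_of_eq ?_) h4
    push_cast
    ring
  have h6 : ((d.toNat : ℕ) : ℝ) = (d : ℝ) := by
    exact_mod_cast congrArg (fun z : ℤ => (z : ℝ)) h2
  unfold famA
  rw [le_div_iff₀ (by positivity)]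
  rw [h6] at h5
  have h7 : (0 : ℝ) < d := by exact_mod_cast hd.2 rfl
  nlinarith [Real.pi_le_four, Real.pi_pos]

theorem famA_pos (d : ℤ) (hd : d ∈ Twists true) : 0 < famA d := by
  have h7 : (0 : ℝ) < d := by exact_mod_cast hd.2 rfl
  have := famA_ge d hd
  linarith

theorem fam_fin (B : ℝ) : {d ∈ Twists true | famA d ≤ B}.Finite := by
  refine (Set.finite_Icc (0 : ℤ) ⌈2 * B⌉).subset ?_
  rintro d ⟨hd, hB⟩
  have h1 := famA_ge d hd
  have h0 : 0 < d := hd.2 rfl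
  refine ⟨h0.le, ?_⟩
  have h2 : (d : ℝ) ≤ 2 * B := by linarith
  exact_mod_cast h2.trans (Int.le_ceil _)

theorem fam_prime (p : ℕ) (hp : p.Prime) : (p : ℤ) ∈ Twists true :=
  ⟨Int.squarefree_natCast.2 hp.squarefree, fun _ => by exact_mod_cast hp.pos⟩

theorem fam_H1 (r : ℤ → ℕ) (h : ∀ p : ℕ, p.Prime → p % 8 = 3 → r p = 0) :
    {d ∈ Twists true | r d = 0}.Infinite := by
  have h1 : {p : ℕ | p.Prime ∧ p % 8 = 3}.Infinite := by
    refine Set.infinite_of_forall_exists_gt fun n => ?_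
    obtain ⟨p, h1, h2, h3⟩ := Nat.forall_exists_prime_gt_and_modEq n (q := 8) (a := 3) (by norm_num)
      (by norm_num)
    exact ⟨p, ⟨h2, h3⟩, h1⟩
  refine (h1.image (f := fun p : ℕ => (p : ℤ)) (fun a _ b _ hab => Nat.cast_injective hab)).mono ?_
  rintro _ ⟨p, ⟨hp, hp8⟩, rfl⟩
  exact ⟨fam_prime p hp, h p hp hp8⟩

theorem fam_gamma : AnalyticAt ℂ Complex.Gamma 1 := by
  have hopen : IsOpen {s : ℂ | 0 < s.re} := isOpen_lt continuous_const Complex.continuous_re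
  have h1 : (1 : ℂ) ∈ {s : ℂ | 0 < s.re} := by
    show (0 : ℝ) < (1 : ℂ).re
    norm_num
  refine DifferentiableOn.analyticAt (s := {s : ℂ | 0 < s.re}) (fun s hs => ?_) (hopen.mem_nhds h1)
  refine (Complex.differentiableAt_Gamma s fun m h => ?_).differentiableWithinAt
  have h2 : (0 : ℝ) < s.re := hs
  rw [h] at h2
  simp at h2
  have h9 : (0 : ℝ) ≤ m := Nat.cast_nonneg m
  linarith

end MQV
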