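import Pool.Agent.W_92892c_v15.AnaX

/-!
The normalised data of a family, with the order of vanishing.
-/

namespace MQV

open Finset Filter PowerSeries Topology

/-- The normalised data of a family; `k d` is the difference between `r d` and the order. -/
theorem TwistFamily.nrm2 {real : Bool} {γ : ℂ → ℂ} {L : ℤ → ℂ → ℂ} {A : ℤ → ℝ} {c : ℤ → ℂ}
    (hF : TwistFamily real γ L A c) {r : ℤ → ℕ}
    (hQ : ∀ d ∈ Twists real, bsdQuot L r c {d} = 1) :
    ∃ (R : PowerSeries ℂ) (k : ℤ → ℕ) (F : ℤ → PowerSeries ℂ),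
      Nrm real L r c (fun d => Real.log (A d)) R k F ∧
      ∀ d ∈ Twists real, analyticOrderAt (L d) 1 + k d = r d := by
  have h1 : ∀ d : ℤ, ∃ (m k : ℕ) (F : PowerSeries ℂ), d ∈ Twists real →
      r d = m + k ∧ tay (L d) = PowerSeries.C (c d) * (X ^ m * F) ∧
      coeff k F = 1 ∧ coeff 0 F ≠ 0 ∧
      ∀ j, Odd j → coeff j (F * rescale ((Real.log (A d) : ℝ) : ℂ) (exp ℂ) *
        (PowerSeries.C (γ 1)⁻¹ * tay γ)) = 0 := by
    intro d
    by_cases hd : d ∈ Twists real
    · have hr : coeff (r d) (tay (L d)) = c d := by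
        have h2 := hQ d hd
        rw [bsdQuot_eq (fun e he => by
          rw [Finset.mem_singleton.1 he]
          exact hF.an d hd)] at h2
        simp only [Finset.sum_singleton, Finset.prod_singleton] at h2
        rwa [div_eq_one_iff_eq (hF.ne d hd)] at h2
      obtain ⟨m, k, F, h3⟩ := normal_form (hF.pos d hd) hF.gamma_an hF.gamma_ne (hF.an d hd)
        (hF.fe d hd) (hF.ne d hd) hr
      exact ⟨m, k, F, fun _ => h3⟩
    · exact ⟨0, 0, 0, fun h => absurd h hd⟩
  choose m k F h using h1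
  have hcoef : ∀ d ∈ Twists real, ∀ i, iteratedDeriv i (L d) 1 / (i.factorial : ℂ) =
      c d * (if m d ≤ i then coeff (i - m d) (F d) else 0) := by
    intro d hd i
    rw [← coeff_tay, (h d hd).2.1, coeff_C_mul, coeff_X_pow_mul']
  have hlow : ∀ d ∈ Twists real, ∀ i < m d, iteratedDeriv i (L d) 1 = 0 := by
    intro d hd i hi
    have h9 := hcoef d hd i
    rw [if_neg (by omega), mul_zero] at h9
    have h10 : (i.factorial : ℂ) ≠ 0 := by exact_mod_cast i.factorial_ne_zero
    exact (div_eq_zero_iff.1 h9).resolve_right h10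
  have htop : ∀ d ∈ Twists real, iteratedDeriv (m d) (L d) 1 ≠ 0 := by
    intro d hd h0
    have h9 := hcoef d hd (m d)
    rw [if_pos le_rfl, Nat.sub_self, h0, zero_div] at h9
    exact mul_ne_zero (hF.ne d hd) (h d hd).2.2.2.1 h9.symm
  refine ⟨PowerSeries.C (γ 1)⁻¹ * tay γ, k, F, ⟨?_, ?_, ?_, ?_, ?_, ?_, ?_⟩, ?_⟩
  · rw [coeff_C_mul, coeff_tay]
    simp [hF.gamma_ne]
  · intro d hd
    have := (h d hd).1
    omega
  · intro d hd j hj
    exact (h d hd).2.2.2.2 j hj
  · intro d hd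
    exact (h d hd).2.2.2.1
  · intro d hd
    exact (h d hd).2.2.1
  · intro C hC
    rw [bsdQuot_eq fun d hd => hF.an d (hC hd)]
    have h2 : ∏ d ∈ C, tay (L d) = PowerSeries.C (∏ d ∈ C, c d) *
        (X ^ (∑ d ∈ C, m d) * ∏ d ∈ C, F d) := by
      rw [map_prod, ← Finset.prod_pow_eq_pow_sum, ← Finset.prod_mul_distrib,
        ← Finset.prod_mul_distrib]
      exact Finset.prod_congr rfl fun d hd => (h d (hC hd)).2.1
    have h3 : ∑ d ∈ C, r d = ∑ d ∈ C, k d + ∑ d ∈ C, m d := by
      rw [← Finset.sum_add_distrib]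
      exact Finset.sum_congr rfl fun d hd => by rw [(h d (hC hd)).1, add_comm]
    have h4 : ∏ d ∈ C, c d ≠ 0 := Finset.prod_ne_zero_iff.2 fun d hd => hF.ne d (hC hd)
    rw [h2, h3, coeff_C_mul, coeff_X_pow_mul', if_pos (Nat.le_add_left _ _),
      Nat.add_sub_cancel_right, mul_div_cancel_left₀ _ h4]
  · intro d hd
    obtain ⟨h2, h3, h4, h5, -⟩ := h d hd
    unfold BSD
    constructor
    · rintro ⟨h6, h7⟩
      by_contra hk
      exact htop d hd (h6 _ (by omega))
    · intro hk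
      have h8 : m d = r d := by omega
      refine ⟨fun i hi => hlow d hd i (by omega), ?_⟩
      rw [hcoef d hd, if_pos h8.le, h8, Nat.sub_self]
      rw [hk] at h4
      rw [h4, mul_one]
  · intro d hd
    have h2 : analyticOrderAt (L d) 1 = m d :=
      (analyticOrderAt_eq_nat_iff_iteratedDeriv_eq_zero (hF.an d hd)).2 ⟨hlow d hd, htop d hd⟩
    rw [h2, (h d hd).1]
    push_cast
    rfl

end MQV
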