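import Pool.Agent.W_92892c_v15.Count
import Pool.Agent.W_92892c_h28.CoreB2

/-!
The number of exceptional values of `lam` at each level.
-/

namespace W92892c

open Finset Matrix Filter Topology

/-- The series of level `n + 1` span, modulo `w^(n+1)`, a space of dimension at most `(n+1)/2`: the
relations have dimension at least `n/2 + 1`. -/
theorem span_level {G : PowerSeries ℂ} (hG : PowerSeries.coeff 0 G = 1) (n : ℕ)
    {ι ι' : Type*} {f' : Filter ι'} [f'.NeBot] {x' : ι' → ℂ}
    (hx' : Tendsto (fun i => ‖x' i‖) f' atTop)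
    {F : ι → PowerSeries ℂ} {F' : ι' → PowerSeries ℂ}
    (hF' : ∀ i, IsType G (x' i) (F' i))
    (h : ∀ i, Tendsto (fun i' => (x' i')⁻¹ * PowerSeries.coeff (n + 1) (F i * F' i')) f' (𝓝 0)) :
    ∃ Λ : Submodule ℂ (Fin (n + 1) → ℂ), n / 2 + 1 ≤ Module.finrank ℂ Λ ∧
      ∀ φ ∈ Λ, ∀ i, ∑ l : Fin (n + 1), φ l * PowerSeries.coeff (l : ℕ) (F i) = 0 := by
  classical
  let ψ : ι → Fin (n + 1) → ℂ := fun i l => PowerSeries.coeff (l : ℕ) (F i)
  let 𝓐 : Submodule ℂ (Fin (n + 1) → ℂ) := Submodule.span ℂ (Set.range ψ)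
  let T : (Fin (n + 1) → ℂ) →ₗ[ℂ] Module.Dual ℂ 𝓐 :=
    { toFun := fun v =>
        { toFun := fun b => ∑ l, v l * (b : Fin (n + 1) → ℂ) l
          map_add' := by
            intro a b
            simp only [Submodule.coe_add, Pi.add_apply, mul_add, Finset.sum_add_distrib]
          map_smul' := by
            intro c a
            simp only [Submodule.coe_smul, Pi.smul_apply, smul_eq_mul, RingHom.id_apply,
              Finset.mul_sum]
            exact Finset.sum_congr rfl fun l _ => by ring }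
      map_add' := by
        intro a b
        ext c
        simp only [Pi.add_apply, add_mul, Finset.sum_add_distrib, LinearMap.coe_mk,
          AddHom.coe_mk, LinearMap.add_apply]
      map_smul' := by
        intro c a
        ext b
        simp only [Pi.smul_apply, smul_eq_mul, RingHom.id_apply, LinearMap.coe_mk,
          AddHom.coe_mk, LinearMap.smul_apply, Finset.mul_sum]
        exact Finset.sum_congr rfl fun l _ => by ring }
  have hxinv : Tendsto (fun i => (x' i)⁻¹) f' (𝓝 0) := by
    rw [tendsto_zero_iff_norm_tendsto_zero]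
    simp only [norm_inv]
    exact tendsto_inv_atTop_zero.comp hx'
  let ΛB : Submodule ℂ (Fin (n + 1 + 1) → ℂ) :=
    { carrier := {φ | φ 0 = 0 ∧ Tendsto (fun i => (x' i)⁻¹ *
        ∑ l : Fin (n + 1 + 1), φ l * PowerSeries.coeff (l : ℕ) (F' i)) f' (𝓝 0)}
      add_mem' := by
        rintro a b ⟨ha0, ha⟩ ⟨hb0, hb⟩
        refine ⟨by rw [Pi.add_apply, ha0, hb0, add_zero], ?_⟩
        have h1 := ha.add hb
        rw [add_zero] at h1
        refine h1.congr fun i => ?_
        simp only [Pi.add_apply, add_mul, Finset.sum_add_distrib]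
        ring
      zero_mem' := by
        refine ⟨rfl, ?_⟩
        simp
      smul_mem' := by
        rintro c a ⟨ha0, ha⟩
        refine ⟨by rw [Pi.smul_apply, ha0, smul_zero], ?_⟩
        have h1 := ha.const_mul c
        rw [mul_zero] at h1
        refine h1.congr fun i => ?_
        simp only [Pi.smul_apply, smul_eq_mul, mul_assoc, ← Finset.mul_sum]
        ring }
  have hΛB : Module.finrank ℂ ΛB ≤ (n + 1) / 2 :=
    finrank_le_half_bounded hG hx' hF' (n + 1) ΛB (fun φ hφ => hφ.1) (fun φ hφ => hφ.2)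
  -- the reversal map
  let S0 : (Fin (n + 1) → ℂ) →ₗ[ℂ] (Fin (n + 1 + 1) → ℂ) :=
    { toFun := fun v => Fin.cons 0 (fun j : Fin (n + 1) => v (Fin.rev j))
      map_add' := by
        intro a b
        funext j
        refine Fin.cases ?_ (fun j => ?_) j
        · simp
        · simp
      map_smul' := by
        intro c a
        funext j
        refine Fin.cases ?_ (fun j => ?_) j
        · simp
        · simp }
  have hS0inj : Function.Injective S0 := by
    intro a b hab
    funext j
    have h1 := congrFun hab (Fin.succ (Fin.rev j))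
    simpa [S0] using h1
  have hmap : 𝓐.map S0 ≤ ΛB := by
    rw [Submodule.map_span_le]
    rintro _ ⟨i, rfl⟩
    refine ⟨by simp [S0], ?_⟩
    have hkey : ∀ i', ∑ l : Fin (n + 1 + 1), S0 (ψ i) l * PowerSeries.coeff (l : ℕ) (F' i')
        = PowerSeries.coeff (n + 1) (F i * F' i') - PowerSeries.coeff (n + 1) (F i) := by
      intro i'
      rw [PowerSeries.coeff_mul, Finset.Nat.sum_antidiagonal_eq_sum_range_succ
        (fun a b => PowerSeries.coeff a (F i) * PowerSeries.coeff b (F' i')) (n + 1),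
        Finset.sum_range_succ, Nat.sub_self, (hF' i').coeff_zero hG, mul_one,
        Finset.sum_range, add_sub_cancel_right]
      rw [Fin.sum_univ_succ]
      simp only [S0, LinearMap.coe_mk, AddHom.coe_mk, Fin.cons_zero, zero_mul, zero_add,
        Fin.cons_succ]
      rw [← Equiv.sum_comp Fin.revPerm]
      refine Finset.sum_congr rfl fun j _ => ?_
      rw [Fin.revPerm_apply, Fin.rev_rev]
      congr 2
      rw [Fin.val_succ, Fin.val_rev]
      have := j.2
      congr 1
      omega
    simp only [hkey]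
    have h1 := (h i).sub (hxinv.mul_const (PowerSeries.coeff (n + 1) (F i)))
    rw [zero_mul, sub_zero] at h1
    refine h1.congr fun i' => ?_
    ring
  have hfin : Module.finrank ℂ 𝓐 ≤ (n + 1) / 2 := by
    have h1 : Module.finrank ℂ (𝓐.map S0) = Module.finrank ℂ 𝓐 :=
      (LinearEquiv.finrank_eq (Submodule.equivMapOfInjective S0 hS0inj 𝓐)).symm
    rw [← h1]
    exact (Submodule.finrank_mono hmap).trans hΛB
  refine ⟨LinearMap.ker T, ?_, ?_⟩
  · have h1 := LinearMap.finrank_range_add_finrank_ker T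
    have h2 : Module.finrank ℂ (LinearMap.range T) ≤ Module.finrank ℂ 𝓐 := by
      refine (Submodule.finrank_le _).trans ?_
      rw [Subspace.dual_finrank_eq]
    rw [Module.finrank_fin_fun] at h1
    omega
  · intro v hv i
    have h1 : T v ⟨ψ i, Submodule.subset_span ⟨i, rfl⟩⟩ = 0 := by
      rw [LinearMap.mem_ker.1 hv]; rfl
    exact h1

/-- The numbers `lam d` with `k d = n + 1` are at most `h (h + 1) / 2`, `h = (n + 1) / 2`. -/
theorem coreB_count {D : Type*} {BB : Set D} {R : PowerSeries ℂ}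
    (hR : PowerSeries.coeff 0 R = 1)
    {lam : D → ℝ} {F : D → PowerSeries ℂ} {k : D → ℕ} (h : DataB BB R lam F k) (n : ℕ) :
    ∃ X : Finset ℝ, X.card ≤ (n + 1) / 2 * ((n + 1) / 2 + 1) / 2 ∧ ∀ d, k d = n + 1 → lam d ∈ X := by
  classical
  have : Infinite BB := h.inf.to_subtype
  have hnorm : Tendsto (fun i : BB => ‖((-lam i : ℝ) : ℂ)‖) cofinite atTop := by
    have h1 : Tendsto (fun i : BB => lam i) cofinite atTop :=
      h.grow.comp Subtype.val_injective.tendsto_cofinite
    have h2 := tendsto_abs_atTop_atTop.comp h1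
    refine h2.congr fun i => ?_
    simp only [Function.comp, Complex.norm_real, Real.norm_eq_abs, abs_neg]
  have hR' : PowerSeries.coeff 0 R⁻¹ = 1 := by
    rw [PowerSeries.coeff_zero_eq_constantCoeff_apply, PowerSeries.constantCoeff_inv,
      ← PowerSeries.coeff_zero_eq_constantCoeff_apply, hR, inv_one]
  obtain ⟨Λ, hΛ1, hΛ2⟩ := span_level (G := R⁻¹) hR' n hnorm
    (F := fun i : {d | k d = n + 1} => F i)
    (F' := fun i : BB => PowerSeries.C (PowerSeries.coeff 0 (F i))⁻¹ * F i)
    (fun i => isType_normal hR (h.odd i) (h.zero i)) (by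
      rintro ⟨a, ha⟩
      have ha' : k a = n + 1 := ha
      obtain ⟨B, hB⟩ := h.pair a
      have hxinv : Tendsto (fun i : BB => ‖((-lam i : ℝ) : ℂ)‖⁻¹) cofinite (𝓝 0) :=
        tendsto_inv_atTop_zero.comp hnorm
      have hbd := hxinv.mul_const B
      rw [zero_mul] at hbd
      refine squeeze_zero_norm (fun i => ?_) hbd
      obtain ⟨b, hb⟩ := i
      have hb' : k b = 0 := h.good b hb
      have hab : b ≠ a := by
        rintro rfl
        omega
      have h1 := hB b hb hab
      have h3 := h.top b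
      rw [ha', hb', add_zero] at h1
      rw [hb'] at h3
      simp only
      rw [h3, inv_one, map_one, one_mul, norm_mul, norm_inv]
      have h4 : 0 ≤ ‖((-lam b : ℝ) : ℂ)‖⁻¹ := by positivity
      gcongr)
  obtain ⟨D', hD'1, hD'2⟩ := count_types (G := R⁻¹) hR' n Λ hΛ1
  refine ⟨D'.image (fun z => -z.re), Finset.card_image_le.trans hD'1, fun d hd => ?_⟩
  rw [Finset.mem_image]
  refine ⟨((-lam d : ℝ) : ℂ), ?_, by rw [Complex.ofReal_re, neg_neg]⟩
  refine hD'2 _ _ (isType_normal hR (h.odd d) (h.zero d)) ?_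
  intro φ hφ
  have h1 := hΛ2 φ hφ ⟨d, hd⟩
  simp only [PowerSeries.coeff_C_mul]
  have h2 : ∑ l : Fin (n + 1), φ l * ((PowerSeries.coeff 0 (F d))⁻¹ *
      PowerSeries.coeff (l : ℕ) (F d)) = (PowerSeries.coeff 0 (F d))⁻¹ *
      ∑ l : Fin (n + 1), φ l * PowerSeries.coeff (l : ℕ) (F d) := by
    rw [Finset.mul_sum]
    exact Finset.sum_congr rfl fun l _ => by ring
  rw [h2]
  have h3 : ∑ l : Fin (n + 1), φ l * PowerSeries.coeff (l : ℕ) (F d) = 0 := h1
  rw [h3, mul_zero]

/-- The numbers `lam d` with `1 ≤ k d ≤ M` are at most `M (M + 1) (M + 2) / 24`. -/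
theorem coreB_values {D : Type*} {BB : Set D} {R : PowerSeries ℂ}
    (hR : PowerSeries.coeff 0 R = 1)
    {lam : D → ℝ} {F : D → PowerSeries ℂ} {k : D → ℕ} (h : DataB BB R lam F k) (M : ℕ) :
    ∃ X : Finset ℝ, 24 * X.card ≤ M * (M + 1) * (M + 2) ∧ ∀ d, 1 ≤ k d → k d ≤ M → lam d ∈ X := by
  classical
  choose X hX1 hX2 using coreB_count hR h
  have hclosed : ∀ M : ℕ, 24 * ∑ n ∈ range M, (n + 1) / 2 * ((n + 1) / 2 + 1) / 2 ≤
      M * (M + 1) * (M + 2) := by
    -- two steps at a time
    have h2 : ∀ q : ℕ, 24 * ∑ n ∈ range (2 * q), (n + 1) / 2 * ((n + 1) / 2 + 1) / 2 =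
        (2 * q) * (2 * q + 1) * (2 * q + 2) := by
      intro q
      induction q with
      | zero => simp
      | succ q ih =>
        rw [show 2 * (q + 1) = 2 * q + 1 + 1 by ring, Finset.sum_range_succ,
          Finset.sum_range_succ, mul_add, mul_add, ih]
        have e1 : (2 * q + 1) / 2 = q := by omega
        have e2 : (2 * q + 1 + 1) / 2 = q + 1 := by omega
        rw [e1, e2]
        obtain ⟨a, ha⟩ : 2 ∣ q * (q + 1) := (Nat.even_mul_succ_self q).two_dvd
        obtain ⟨b, hb⟩ : 2 ∣ (q + 1) * (q + 1 + 1) := (Nat.even_mul_succ_self (q + 1)).two_dvd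
        rw [ha, hb, Nat.mul_div_cancel_left _ (by norm_num), Nat.mul_div_cancel_left _ (by norm_num)]
        nlinarith
    intro M
    rcases Nat.even_or_odd' M with ⟨q, hq | hq⟩
    · rw [hq]
      exact (h2 q).le
    · rw [hq, Finset.sum_range_succ, mul_add, h2 q]
      have e1 : (2 * q + 1) / 2 = q := by omega
      rw [e1]
      obtain ⟨a, ha⟩ : 2 ∣ q * (q + 1) := (Nat.even_mul_succ_self q).two_dvd
      rw [ha, Nat.mul_div_cancel_left _ (by norm_num)]
      nlinarith
  refine ⟨(range M).biUnion X, ?_, ?_⟩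
  · calc 24 * ((range M).biUnion X).card ≤ 24 * ∑ n ∈ range M, (X n).card :=
          Nat.mul_le_mul_left _ Finset.card_biUnion_le
      _ ≤ 24 * ∑ n ∈ range M, (n + 1) / 2 * ((n + 1) / 2 + 1) / 2 :=
          Nat.mul_le_mul_left _ (Finset.sum_le_sum fun n _ => hX1 n)
      _ ≤ _ := hclosed M
  · intro d h1 h2
    rw [Finset.mem_biUnion]
    exact ⟨k d - 1, Finset.mem_range.2 (by omega), hX2 (k d - 1) d (by omega)⟩

end W92892c
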