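import Pool.Agent.W_92892c_v15.Stmt

/-!
Definitions for the statement on all elliptic curves over `ℚ` (MP_92892c_nt, team V15).
-/

namespace MQV

/-- The quadratic twist by `d` of `y² = x³ + a₂ x² + a₄ x + a₆`, in the form
`y² = x³ + a₂ d x² + a₄ d² x + a₆ d³`. -/
def gcurve (a2 a4 a6 d : ℤ) : WeierstrassCurve ℤ := ⟨0, d * a2, 0, d ^ 2 * a4, d ^ 3 * a6⟩

/-- The multiquadratic field generated by the complex numbers `x` with `x² = d e`, `e ∈ C`. -/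
noncomputable def mqFieldC (d : ℤ) (C : Finset ℤ) : IntermediateField ℚ ℂ :=
  IntermediateField.adjoin ℚ {x : ℂ | ∃ e ∈ C, x ^ 2 = (d * e : ℤ)}

/-- The rank of `E_d(ℚ)`. -/
noncomputable def rk (a2 a4 a6 d : ℤ) : ℕ := Module.finrank ℤ (Points (gcurve a2 a4 a6 d))

/-- The rank of `E_d` over the field `K = ℚ(√(d e) : e ∈ C)`. -/
noncomputable def rkK (a2 a4 a6 d : ℤ) (C : Finset ℤ) : ℕ :=
  Module.finrank ℤ (PointsOver (gcurve a2 a4 a6 d) (mqFieldC d C))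

/-- The quotient of the two sides of the leading-term formula for `E_d` over
`K = ℚ(√(d e) : e ∈ C)`: the Taylor coefficient at `1`, of order the rank of `E_d(K)`, of
`∏_{e ∈ C} L_e`, divided by `∏ c_e`. -/
noncomputable def quotK (a2 a4 a6 : ℤ) (L : ℤ → ℂ → ℂ) (c : ℤ → ℂ) (d : ℤ) (C : Finset ℤ) : ℂ :=
  iteratedDeriv (rkK a2 a4 a6 d C) (fun s => ∏ e ∈ C, L e s) 1 /
    ((rkK a2 a4 a6 d C).factorial : ℂ) / ∏ e ∈ C, c e

/-- The equality of Q1, read literally: `L^(r)(1)/r! = c`. -/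
def Q1 (L : ℂ → ℂ) (r : ℕ) (c : ℂ) : Prop := iteratedDeriv r L 1 / (r.factorial : ℂ) = c

/-- There are few exceptions to `BSD`: each is a `d` with `ord L_d = r_d - κ`, `κ ≥ 1`; for every `κ ≥ 1`
these `d` form a finite set, on which `A` takes at most `h (h + 1) / 2` values, `h = ⌊κ/2⌋`; the
exceptions with `r_d ≤ M` form a finite set, on which `A` takes at most `M (M + 1) (M + 2) / 24`
values. -/
structure FewExceptions (real : Bool) (L : ℤ → ℂ → ℂ) (A : ℤ → ℝ) (c : ℤ → ℂ) (r : ℤ → ℕ) :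
    Prop where
  defect : ∀ d ∈ Twists real, ¬ BSD (L d) (r d) (c d) → ∃ κ : ℕ, 1 ≤ κ ∧
    analyticOrderAt (L d) 1 + κ = r d
  level : ∀ κ : ℕ, 1 ≤ κ → {d ∈ Twists real | analyticOrderAt (L d) 1 + κ = r d}.Finite ∧
    2 * (A '' {d ∈ Twists real | analyticOrderAt (L d) 1 + κ = r d}).ncard ≤
      κ / 2 * (κ / 2 + 1)
  rank : ∀ M : ℕ, {d ∈ Twists real | r d ≤ M ∧ ¬ BSD (L d) (r d) (c d)}.Finite ∧
    24 * (A '' {d ∈ Twists real | r d ≤ M ∧ ¬ BSD (L d) (r d) (c d)}).ncard ≤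
      M * (M + 1) * (M + 2)

end MQV
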