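import Pool.Agent.W_92892c_v15.FamInj
import Pool.Agent.W_92892c_v15.AnaY
import Pool.Agent.W_92892c_v15.StmtG
import Pool.Agent.W_92892c_v15.CountCore
import Pool.Agent.W_92892c_h3.MW
import Pool.Agent.W_92892c_h77.RankG

open Filter Topology

namespace MQV

open PPM

theorem quotK_eq {a2 a4 a6 : ℤ} (hΔ : (gcurve a2 a4 a6 1).Δ ≠ 0) (L : ℤ → ℂ → ℂ) (c : ℤ → ℂ)
    (real : Bool) (C : Finset ℤ) (hc : IsCoset C) (hp : ↑C ⊆ Twists real) (d : ℤ) (hd : d ∈ C) :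
    quotK a2 a4 a6 L c d C = bsdQuot L (rk a2 a4 a6) c C := by
  have h := Pool.Agent.W92892cH77.finrank_mqFieldC a2 a4 a6 hΔ C hc
    (fun x hx => ⟨(hp hx).1, fun h => absurd h (by simp)⟩) d hd
  unfold quotK bsdQuot rkK rk
  rw [h]

theorem quotK_singleton {a2 a4 a6 : ℤ} (hΔ : (gcurve a2 a4 a6 1).Δ ≠ 0) (L : ℤ → ℂ → ℂ) (c : ℤ → ℂ)
    (real : Bool) (d : ℤ) (hd : d ∈ Twists real) (hc : c d ≠ 0) :
    quotK a2 a4 a6 L c d {d} = 1 ↔ Q1 (L d) (rk a2 a4 a6 d) (c d) := by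
  rw [quotK_eq hΔ L c real {d} (isCoset_singleton d) (by simpa using hd) d (by simp)]
  unfold bsdQuot Q1
  simp only [Finset.sum_singleton, Finset.prod_singleton]
  exact div_eq_one_iff_eq hc

theorem rk_bound {a2 a4 a6 : ℤ} (hΔ : (gcurve a2 a4 a6 1).Δ ≠ 0) (real : Bool) :
    ∀ n : ℕ, ∃ M : ℕ, ∀ d ∈ Twists real, d.natAbs.primeFactors.card ≤ n → rk a2 a4 a6 d ≤ M := by
  intro n
  obtain ⟨a, b, hab⟩ := Pool.Agent.W92892cH77.gcurve_fg_rank a2 a4 a6 hΔ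
  refine ⟨a + b * n, fun d hd hn => ?_⟩
  exact (hab d hd.1.ne_zero).2.trans (Nat.add_le_add_left (Nat.mul_le_mul_left _ hn) _)

theorem FewExceptions.of_inj {real : Bool} {L : ℤ → ℂ → ℂ} {A A' : ℤ → ℝ} {c : ℤ → ℂ} {r : ℤ → ℕ}
    (h : FewExceptions real L A c r) (hinj : Set.InjOn A (Twists real)) :
    FewExceptions real L A' c r := by
  have key : ∀ S : Set ℤ, S ⊆ Twists real → S.Finite → (A' '' S).ncard ≤ (A '' S).ncard := by
    intro S hS hfin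
    rw [Set.InjOn.ncard_image (hinj.mono hS)]
    exact Set.ncard_image_le hfin
  refine ⟨h.defect, fun κ hκ => ⟨(h.level κ hκ).1, ?_⟩, fun M => ⟨(h.rank M).1, ?_⟩⟩
  · exact (Nat.mul_le_mul_left _ (key _ (Set.sep_subset _ _) (h.level κ hκ).1)).trans
      (h.level κ hκ).2
  · exact (Nat.mul_le_mul_left _ (key _ (Set.sep_subset _ _) (h.rank M).1)).trans (h.rank M).2

theorem ncard_image_le {A : ℤ → ℝ} {S : Set ℤ} {X : Finset ℝ}
    (h : ∀ d ∈ S, 0 < A d ∧ Real.log (A d) ∈ X) : (A '' S).ncard ≤ X.card := by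
  classical
  have hsub : (A '' S) ⊆ ↑(X.image Real.exp) := by
    rintro _ ⟨d, hd, rfl⟩
    rw [Finset.coe_image]
    exact ⟨_, (h d hd).2, Real.exp_log (h d hd).1⟩
  calc (A '' S).ncard
      ≤ (↑(X.image Real.exp) : Set ℝ).ncard := Set.ncard_le_ncard hsub (Finset.finite_toSet _)
    _ = (X.image Real.exp).card := Set.ncard_coe_finset _
    _ ≤ X.card := Finset.card_image_le

theorem exceptions (real : Bool) (γ : ℂ → ℂ) (L : ℤ → ℂ → ℂ) (A : ℤ → ℝ) (c : ℤ → ℂ)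
    (hF : TwistFamily real γ L A c) (r : ℤ → ℕ) (BB : Set ℤ)
    (hBB : ∀ b ∈ BB, b ∈ Twists real ∧ r b = 0) (hinf : BB.Infinite)
    (hQ : ∀ d ∈ Twists real, bsdQuot L r c {d} = 1)
    (hP : ∀ a ∈ Twists real, ∃ B : ℝ, ∀ b ∈ BB, b ≠ a → ‖bsdQuot L r c {a, b}‖ ≤ B) :
    FewExceptions real L A c r ∧
    ((∀ n : ℕ, ∃ M : ℕ, ∀ d ∈ Twists real, d.natAbs.primeFactors.card ≤ n → r d ≤ M) →
      ∀ d ∈ Twists real, (∃ B : ℝ, ∀ C : Finset ℤ, ↑C ⊆ Twists real → IsCoset C → d ∈ C →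
        C.card ≤ 2 ^ r d → ‖bsdQuot L r c C‖ ≤ B) → BSD (L d) (r d) (c d)) := by
  classical
  obtain ⟨R, k, F, h, hk⟩ := hF.nrm2 hQ
  have hlam : ∀ B : ℝ, {d ∈ Twists real | Real.log (A d) ≤ B}.Finite := by
    intro B
    refine (hF.fin (Real.exp B)).subset ?_
    rintro d ⟨hd, hB⟩
    exact ⟨hd, (Real.log_le_iff_le_exp (hF.pos d hd)).1 hB⟩
  have hg := h.general hlam hBB hinf hP
  have hord : ∀ d ∈ Twists real, ∀ κ : ℕ, analyticOrderAt (L d) 1 + κ = r d → k d = κ := by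
    intro d hd κ hκ
    have h1 := hk d hd
    rw [← hκ] at h1
    have h2 : analyticOrderAt (L d) 1 ≠ ⊤ := by
      intro h3
      rw [h3, top_add] at hκ
      exact ENat.top_ne_natCast _ hκ
    have h3 : ((k d : ℕ) : ℕ∞) = (κ : ℕ) := (WithTop.add_left_inj h2).1 h1
    exact Nat.cast_injective h3
  have hcl : ∀ d ∈ Twists real, ∃ a : Cls real, sqf a = d := fun d hd => exists_sqf hd
  refine ⟨⟨?_, ?_, fun M => ⟨hg.1 M, ?_⟩⟩, hg.2⟩
  · intro d hd hb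
    rw [h.bsd d hd] at hb
    exact ⟨k d, Nat.one_le_iff_ne_zero.2 hb, hk d hd⟩
  · intro κ hκ
    obtain ⟨n, rfl⟩ : ∃ n, κ = n + 1 := ⟨κ - 1, by omega⟩
    obtain ⟨X, hX1, hX2⟩ := W92892c.coreB_count h.R0 (h.data hlam hBB hinf hP) n
    have hmem : ∀ d ∈ {d ∈ Twists real | analyticOrderAt (L d) 1 + (n + 1 : ℕ) = r d},
        0 < A d ∧ Real.log (A d) ∈ X := by
      rintro d ⟨hd, hκd⟩
      refine ⟨hF.pos d hd, ?_⟩
      obtain ⟨a, ha⟩ := hcl d hd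
      have h3 := hX2 a (by rw [ha]; exact hord d hd _ hκd)
      rwa [ha] at h3
    constructor
    · refine ((X.finite_toSet.biUnion (t := fun x => {d ∈ Twists real | A d ≤ Real.exp x})
        fun x _ => hF.fin _)).subset ?_
      intro d hd
      rw [Set.mem_iUnion₂]
      exact ⟨_, (hmem d hd).2, hd.1, (Real.exp_log (hmem d hd).1).ge⟩
    · have h4 := (ncard_image_le hmem).trans hX1
      have h5 := Nat.div_mul_le_self ((n + 1) / 2 * ((n + 1) / 2 + 1)) 2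
      omega
  · obtain ⟨X, hX1, hX2⟩ := W92892c.coreB_values h.R0 (h.data hlam hBB hinf hP) M
    refine le_trans (Nat.mul_le_mul_left _ (ncard_image_le ?_)) hX1
    rintro d ⟨hd, hr, hb⟩
    refine ⟨hF.pos d hd, ?_⟩
    obtain ⟨a, ha⟩ := hcl d hd
    rw [h.bsd d hd] at hb
    have h3 := hX2 a (by rw [ha]; exact Nat.one_le_iff_ne_zero.2 hb)
      (by rw [ha]; exact (h.rk d hd).trans hr)
    rwa [ha] at h3

theorem quot_of_bsd (real : Bool) (γ : ℂ → ℂ) (L : ℤ → ℂ → ℂ) (A : ℤ → ℝ) (c : ℤ → ℂ)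
    (hF : TwistFamily real γ L A c) (r : ℤ → ℕ)
    (h : ∀ d ∈ Twists real, BSD (L d) (r d) (c d)) (C : Finset ℤ) (hC : ↑C ⊆ Twists real) :
    bsdQuot L r c C = 1 := by
  have hQ : ∀ d ∈ Twists real, bsdQuot L r c {d} = 1 := by
    intro d hd
    unfold bsdQuot
    simp only [Finset.sum_singleton, Finset.prod_singleton]
    rw [(h d hd).2, div_self (hF.ne d hd)]
  obtain ⟨R, k, F, hN⟩ := hF.nrm hQ
  have hk : ∀ d ∈ C, k d = 0 := fun d hd =>
    (hN.bsd d (hC (Finset.mem_coe.2 hd))).1 (h d (hC (Finset.mem_coe.2 hd)))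
  rw [hN.quot C hC, Finset.sum_eq_zero hk, PowerSeries.coeff_zero_eq_constantCoeff_apply, map_prod]
  refine Finset.prod_eq_one fun d hd => ?_
  have h1 := hN.top d (hC (Finset.mem_coe.2 hd))
  rw [hk d hd, PowerSeries.coeff_zero_eq_constantCoeff_apply] at h1
  exact h1

/-- The general theorem for an elliptic curve `y² = x³ + a₂ x² + a₄ x + a₆` and its twists. -/
theorem literal {a2 a4 a6 : ℤ} (hΔ : (gcurve a2 a4 a6 1).Δ ≠ 0) (real : Bool) (γ : ℂ → ℂ)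
    (L : ℤ → ℂ → ℂ) (A : ℤ → ℝ) (c : ℤ → ℂ) (hF : TwistFamily real γ L A c) (BB : Set ℤ)
    (hBB : ∀ b ∈ BB, b ∈ Twists real ∧ rk a2 a4 a6 b = 0) (hinf : BB.Infinite) :
    List.TFAE [
      ∀ d ∈ Twists real, BSD (L d) (rk a2 a4 a6 d) (c d),
      ∀ C : Finset ℤ, ↑C ⊆ Twists real → IsCoset C → ∀ d ∈ C, quotK a2 a4 a6 L c d C = 1,
      (∀ d ∈ Twists real, quotK a2 a4 a6 L c d {d} = 1) ∧ ∀ d ∈ Twists real, ∃ B : ℝ,
        ∀ C : Finset ℤ, ↑C ⊆ Twists real → IsCoset C → d ∈ C →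
          C.card ≤ max 2 (2 ^ rk a2 a4 a6 d) → ‖quotK a2 a4 a6 L c d C‖ ≤ B] ∧
    ((∀ d ∈ Twists real, quotK a2 a4 a6 L c d {d} = 1) →
      (∀ a ∈ Twists real, ∃ B : ℝ, ∀ b ∈ BB, b ≠ a → ‖quotK a2 a4 a6 L c a {a, b}‖ ≤ B) →
      FewExceptions real L A c (rk a2 a4 a6)) := by
  have hsing : ∀ d ∈ Twists real,
      quotK a2 a4 a6 L c d {d} = bsdQuot L (rk a2 a4 a6) c {d} := fun d hd =>
    quotK_eq hΔ L c real {d} (isCoset_singleton d) (by simpa using hd) d (by simp)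
  have hpair : ∀ a ∈ Twists real, ∀ b ∈ Twists real,
      quotK a2 a4 a6 L c a {a, b} = bsdQuot L (rk a2 a4 a6) c {a, b} := by
    intro a ha b hb
    exact quotK_eq hΔ L c real {a, b} (isCoset_pair a b) (pair_subset ha hb) a (by simp)
  constructor
  · tfae_have 1 → 2 := by
      intro h C hC hC' d hd
      rw [quotK_eq hΔ L c real C hC' hC d hd]
      exact quot_of_bsd real γ L A c hF (rk a2 a4 a6) h C hC
    tfae_have 2 → 3 := by
      intro h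
      refine ⟨fun d hd => h {d} (by simpa using hd) (isCoset_singleton d) d (by simp),
        fun d hd => ⟨1, ?_⟩⟩
      intro C hC hC' hdC _
      rw [h C hC hC' d hdC]
      simp
    tfae_have 3 → 1 := by
      rintro ⟨hQ, hB⟩ d hd
      refine (exceptions real γ L A c hF (rk a2 a4 a6) BB hBB hinf
        (fun d hd => (hsing d hd) ▸ hQ d hd) ?_).2 (rk_bound hΔ real) d hd ?_
      · intro a ha
        obtain ⟨B, hB⟩ := hB a ha
        refine ⟨B, fun b hb hab => ?_⟩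
        rw [← hpair a ha b (hBB b hb).1]
        exact hB {a, b} (pair_subset ha (hBB b hb).1) (isCoset_pair a b) (by simp)
          ((Finset.card_le_two).trans (le_max_left _ _))
      · obtain ⟨B, hB⟩ := hB d hd
        refine ⟨B, fun C hC hC' hdC hcard => ?_⟩
        rw [← quotK_eq hΔ L c real C hC' hC d hdC]
        exact hB C hC hC' hdC (hcard.trans (le_max_right _ _))
    tfae_finish
  · intro hQ hP
    refine (exceptions real γ L A c hF (rk a2 a4 a6) BB hBB hinf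
      (fun d hd => (hsing d hd) ▸ hQ d hd) ?_).1
    intro a ha
    obtain ⟨B, hB⟩ := hP a ha
    refine ⟨B, fun b hb hab => ?_⟩
    rw [← hpair a ha b (hBB b hb).1]
    exact hB b hb hab

theorem gcurve_congr (d : ℤ) : gcurve 0 (-1) 0 d = curve d := by
  simp [gcurve, curve]

/-- The primes `p ≡ 3 (mod 8)`: the curves `y² = x³ - p² x` have rank `0`. -/
theorem bb_congr : (∀ b ∈ {b : ℤ | ∃ p : ℕ, p.Prime ∧ p % 8 = 3 ∧ b = p},
    b ∈ Twists true ∧ rk 0 (-1) 0 b = 0) ∧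
    {b : ℤ | ∃ p : ℕ, p.Prime ∧ p % 8 = 3 ∧ b = p}.Infinite := by
  constructor
  · rintro _ ⟨p, hp, h8, rfl⟩
    refine ⟨fam_prime p hp, ?_⟩
    unfold rk
    rw [gcurve_congr]
    exact CN3.curve_finrank_zero hp h8
  · have h1 : {p : ℕ | p.Prime ∧ p % 8 = 3}.Infinite := by
      refine Set.infinite_of_forall_exists_gt fun n => ?_
      obtain ⟨p, h1, h2, h3⟩ := Nat.forall_exists_prime_gt_and_modEq n (q := 8) (a := 3)
        (by norm_num) (by norm_num)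
      exact ⟨p, ⟨h2, h3⟩, h1⟩
    refine (h1.image (f := fun p : ℕ => (p : ℤ))
      (fun a _ b _ hab => Nat.cast_injective hab)).mono ?_
    rintro _ ⟨p, ⟨hp, hp8⟩, rfl⟩
    exact ⟨p, hp, hp8, rfl⟩

theorem congr_disc : (gcurve 0 (-1) 0 1).Δ ≠ 0 := by
  simp [gcurve, WeierstrassCurve.Δ, WeierstrassCurve.b₂, WeierstrassCurve.b₄,
    WeierstrassCurve.b₆, WeierstrassCurve.b₈]

theorem congruent_lit (L : ℤ → ℂ → ℂ) (c : ℤ → ℂ)
    (hL : ∀ d ∈ Twists true, Differentiable ℂ (L d) ∧ EulerProduct (gcurve 0 (-1) 0 d) (L d))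
    (hc : ∀ d ∈ Twists true, c d ≠ 0) :
    List.TFAE [
      ∀ d ∈ Twists true, BSD (L d) (rk 0 (-1) 0 d) (c d),
      ∀ C : Finset ℤ, ↑C ⊆ Twists true → IsCoset C → ∀ d ∈ C, quotK 0 (-1) 0 L c d C = 1,
      (∀ d ∈ Twists true, quotK 0 (-1) 0 L c d {d} = 1) ∧ ∀ d ∈ Twists true, ∃ B : ℝ,
        ∀ C : Finset ℤ, ↑C ⊆ Twists true → IsCoset C → d ∈ C →
          C.card ≤ max 2 (2 ^ rk 0 (-1) 0 d) → ‖quotK 0 (-1) 0 L c d C‖ ≤ B] ∧
    ((∀ d ∈ Twists true, quotK 0 (-1) 0 L c d {d} = 1) →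
      (∀ a ∈ Twists true, ∃ B : ℝ, ∀ p : ℕ, p.Prime → p % 8 = 3 → (p : ℤ) ≠ a →
        ‖quotK 0 (-1) 0 L c a {a, (p : ℤ)}‖ ≤ B) →
      FewExceptions true L (fun d => (d : ℝ)) c (rk 0 (-1) 0)) := by
  have hF : TwistFamily true Complex.Gamma L famA c :=
    ⟨fam_gamma, by rw [Complex.Gamma_one]; exact one_ne_zero,
      fun d hd => (hL d hd).1.analyticAt 1, famA_pos,
      fun d hd => fam_fe d hd (L d) (hL d hd).1 (by rw [← gcurve_congr]; exact (hL d hd).2),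
      fam_fin, hc⟩
  have h := literal congr_disc true Complex.Gamma L famA c hF _ bb_congr.1 bb_congr.2
  refine ⟨h.1, fun hQ hP => (h.2 hQ ?_).of_inj fun d hd d' hd' hdd => famA_inj hd hd' hdd⟩
  intro a ha
  obtain ⟨B, hB⟩ := hP a ha
  refine ⟨B, ?_⟩
  rintro _ ⟨p, hp, h8, rfl⟩ hab
  exact hB p hp h8 hab

end MQV
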