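import Pool.Agent.W_92892c_v15.Gen0

/-!
Normalised Taylor data from the functional equation (MP_92892c_nt, team V15).
-/

namespace MQV

open Finset Filter PowerSeries Topology

/-- The Taylor series at `1`. -/
noncomputable def tay (f : ℂ → ℂ) : PowerSeries ℂ :=
  PowerSeries.mk fun n => iteratedDeriv n f 1 / (n.factorial : ℂ)

lemma coeff_tay (f : ℂ → ℂ) (n : ℕ) :
    coeff n (tay f) = iteratedDeriv n f 1 / (n.factorial : ℂ) := coeff_mk _ _

lemma tay_congr {f g : ℂ → ℂ} (h : f =ᶠ[𝓝 1] g) : tay f = tay g := by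
  ext n
  rw [coeff_tay, coeff_tay, h.iteratedDeriv_eq]

lemma tay_mul {f g : ℂ → ℂ} (hf : AnalyticAt ℂ f 1) (hg : AnalyticAt ℂ g 1) :
    tay (fun s => f s * g s) = tay f * tay g := by
  ext n
  rw [coeff_mul, coeff_tay, iteratedDeriv_fun_mul hf.contDiffAt hg.contDiffAt,
    Finset.Nat.sum_antidiagonal_eq_sum_range_succ
      (fun i j => coeff i (tay f) * coeff j (tay g)), Finset.sum_div]
  refine Finset.sum_congr rfl fun i hi => ?_
  have hi' : i ≤ n := Nat.lt_succ_iff.1 (Finset.mem_range.1 hi)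
  rw [coeff_tay, coeff_tay, Nat.cast_choose ℂ hi']
  have h1 : (n.factorial : ℂ) ≠ 0 := by exact_mod_cast n.factorial_ne_zero
  have h2 : (i.factorial : ℂ) ≠ 0 := by exact_mod_cast i.factorial_ne_zero
  have h3 : ((n - i).factorial : ℂ) ≠ 0 := by exact_mod_cast (n - i).factorial_ne_zero
  field_simp

lemma tay_one : tay (fun _ => 1) = 1 := by
  ext n
  rw [coeff_tay, coeff_one, iteratedDeriv_const]
  split_ifs with h
  · rw [h]; simp
  · simp

lemma analyticAt_prod {C : Finset ℤ} {L : ℤ → ℂ → ℂ} (hL : ∀ d ∈ C, AnalyticAt ℂ (L d) 1) :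
    AnalyticAt ℂ (fun s => ∏ d ∈ C, L d s) 1 := by
  classical
  induction C using Finset.induction_on with
  | empty =>
    simp only [Finset.prod_empty]
    exact analyticAt_const
  | insert a s ha ih =>
    simp only [Finset.prod_insert ha]
    exact (hL a (mem_insert_self _ _)).fun_mul
      (ih fun d hd => hL d (mem_insert_of_mem hd))

lemma tay_prod {C : Finset ℤ} {L : ℤ → ℂ → ℂ} (hL : ∀ d ∈ C, AnalyticAt ℂ (L d) 1) :
    tay (fun s => ∏ d ∈ C, L d s) = ∏ d ∈ C, tay (L d) := by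
  classical
  induction C using Finset.induction_on with
  | empty =>
    simp only [Finset.prod_empty]
    exact tay_one
  | insert a s ha ih =>
    simp only [Finset.prod_insert ha]
    rw [tay_mul (hL a (mem_insert_self _ _))
      (analyticAt_prod fun d hd => hL d (mem_insert_of_mem hd)),
      ih fun d hd => hL d (mem_insert_of_mem hd)]

lemma bsdQuot_eq {L : ℤ → ℂ → ℂ} {r : ℤ → ℕ} {c : ℤ → ℂ} {C : Finset ℤ}
    (hL : ∀ d ∈ C, AnalyticAt ℂ (L d) 1) :
    bsdQuot L r c C = coeff (∑ d ∈ C, r d) (∏ d ∈ C, tay (L d)) / ∏ d ∈ C, c d := by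
  unfold bsdQuot
  rw [← tay_prod hL, coeff_tay]

lemma tay_cpow {A : ℝ} (hA : 0 < A) :
    tay (fun s => (A : ℂ) ^ s) = PowerSeries.C (A : ℂ) *
      rescale ((Real.log A : ℝ) : ℂ) (exp ℂ) := by
  have hA' : (A : ℂ) ≠ 0 := by exact_mod_cast hA.ne'
  have h1 : (fun s : ℂ => (A : ℂ) ^ s) = fun s => Complex.exp (((Real.log A : ℝ) : ℂ) * s) := by
    funext s
    rw [Complex.cpow_def_of_ne_zero hA', Complex.ofReal_log hA.le]
  ext n
  rw [coeff_tay, h1, iteratedDeriv_cexp_const_mul, coeff_C_mul, coeff_rescale, coeff_exp]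
  beta_reduce
  rw [mul_one, ← Complex.ofReal_exp, Real.exp_log hA]
  simp only [map_div₀, map_one, map_natCast]
  ring

/-- Parity of the coefficients of the completed function. -/
lemma parity {γ L : ℂ → ℂ} {A : ℝ} (hA : 0 < A) (hγ : AnalyticAt ℂ γ 1) (hL : AnalyticAt ℂ L 1)
    (h : FunEqNear γ L A) : ∃ ε : ℂ, ∀ n : ℕ,
      (-1 : ℂ) ^ n * coeff n (tay (fun s => (A : ℂ) ^ s) * tay γ * tay L) =
        ε * coeff n (tay (fun s => (A : ℂ) ^ s) * tay γ * tay L) := by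
  obtain ⟨ε, hε⟩ := h
  refine ⟨ε, fun n => ?_⟩
  have hA' : (A : ℂ) ≠ 0 := by exact_mod_cast hA.ne'
  have hP : AnalyticAt ℂ (fun s : ℂ => (A : ℂ) ^ s) 1 := by
    have h1 : (fun s : ℂ => (A : ℂ) ^ s) = fun s => Complex.exp (((Real.log A : ℝ) : ℂ) * s) := by
      funext s
      rw [Complex.cpow_def_of_ne_zero hA', Complex.ofReal_log hA.le]
    rw [h1]
    exact (analyticAt_const.mul analyticAt_id).cexp
  have hPγ : AnalyticAt ℂ (fun s : ℂ => (A : ℂ) ^ s * γ s) 1 := hP.fun_mul hγ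
  let Λ : ℂ → ℂ := fun s => (A : ℂ) ^ s * γ s * L s
  have hΛ : AnalyticAt ℂ Λ 1 := hPγ.fun_mul hL
  have h1 : tay (fun s => (A : ℂ) ^ s) * tay γ * tay L = tay Λ := by
    rw [← tay_mul hP hγ, ← tay_mul hPγ hL]
  rw [h1, coeff_tay]
  have h2 : (fun w : ℂ => Λ (1 - w)) =ᶠ[𝓝 0] fun w => ε * Λ (1 + w) := hε
  have h3 := h2.iteratedDeriv_eq n
  rw [iteratedDeriv_comp_const_sub n Λ 1, iteratedDeriv_const_mul_field ε,
    iteratedDeriv_comp_const_add n Λ 1] at h3
  simp only [sub_zero, add_zero, smul_eq_mul] at h3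
  rw [← mul_div_assoc, h3, mul_div_assoc]

/-- The normal form of one `L`-function. -/
theorem normal_form {γ L : ℂ → ℂ} {A : ℝ} {c : ℂ} {r : ℕ} (hA : 0 < A) (hγ : AnalyticAt ℂ γ 1)
    (hγ1 : γ 1 ≠ 0) (hL : AnalyticAt ℂ L 1) (h : FunEqNear γ L A) (hc : c ≠ 0)
    (hr : coeff r (tay L) = c) :
    ∃ (m k : ℕ) (F : PowerSeries ℂ), r = m + k ∧ tay L = PowerSeries.C c * (X ^ m * F) ∧
      coeff k F = 1 ∧ coeff 0 F ≠ 0 ∧
      ∀ j, Odd j → coeff j (F * rescale ((Real.log A : ℝ) : ℂ) (exp ℂ) *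
        (PowerSeries.C (γ 1)⁻¹ * tay γ)) = 0 := by
  have hne : tay L ≠ 0 := by
    intro h0
    rw [h0, map_zero] at hr
    exact hc hr.symm
  obtain ⟨m, hm⟩ : ∃ m : ℕ, (tay L).order = m := ⟨(tay L).order.toNat, by
    rw [ENat.natCast_toNat (by rwa [Ne, order_eq_top])]⟩
  obtain ⟨G, hG⟩ : X ^ m ∣ tay L := by
    rw [X_pow_dvd_iff]
    intro i hi
    exact coeff_of_lt_order i (by rw [hm]; exact_mod_cast hi)
  have hm0 : coeff m (tay L) ≠ 0 := by
    have := coeff_order hne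
    rw [hm] at this
    simpa using this
  have hG0 : coeff 0 G ≠ 0 := by
    rw [hG, coeff_X_pow_mul'] at hm0
    simpa using hm0
  have hmr : m ≤ r := by
    by_contra hlt
    have := coeff_of_lt_order (φ := tay L) r (by rw [hm]; exact_mod_cast not_le.1 hlt)
    rw [hr] at this
    exact hc this
  have hcc : PowerSeries.C c * PowerSeries.C c⁻¹ = (1 : PowerSeries ℂ) := by
    rw [← map_mul, mul_inv_cancel₀ hc, map_one]
  refine ⟨m, r - m, PowerSeries.C c⁻¹ * G, by omega, ?_, ?_, ?_, ?_⟩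
  · rw [hG]
    calc X ^ m * G = (PowerSeries.C c * PowerSeries.C c⁻¹) * (X ^ m * G) := by rw [hcc, one_mul]
      _ = _ := by ring
  · rw [coeff_C_mul]
    rw [hG, coeff_X_pow_mul', if_pos hmr] at hr
    rw [hr, inv_mul_cancel₀ hc]
  · rw [coeff_C_mul]
    exact mul_ne_zero (inv_ne_zero hc) hG0
  · intro j hj
    obtain ⟨ε, hε⟩ := parity hA hγ hL h
    have hγ0 : coeff 0 (tay γ) = γ 1 := by
      rw [coeff_tay]
      simp
    -- the completed series
    have h1 : tay (fun s => (A : ℂ) ^ s) * tay γ * tay L =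
        X ^ m * (PowerSeries.C (A * γ 1 * c) * (PowerSeries.C c⁻¹ * G *
          rescale ((Real.log A : ℝ) : ℂ) (exp ℂ) * (PowerSeries.C (γ 1)⁻¹ * tay γ))) := by
      have hgg : PowerSeries.C (γ 1) * PowerSeries.C (γ 1)⁻¹ = (1 : PowerSeries ℂ) := by
        rw [← map_mul, mul_inv_cancel₀ hγ1, map_one]
      rw [tay_cpow hA, hG, map_mul, map_mul]
      calc PowerSeries.C (A : ℂ) * rescale ((Real.log A : ℝ) : ℂ) (exp ℂ) * tay γ * (X ^ m * G)
          = (PowerSeries.C (γ 1) * PowerSeries.C (γ 1)⁻¹) *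
            (PowerSeries.C c * PowerSeries.C c⁻¹) * (PowerSeries.C (A : ℂ) *
            rescale ((Real.log A : ℝ) : ℂ) (exp ℂ) * tay γ * (X ^ m * G)) := by
              rw [hgg, hcc, one_mul, one_mul]
        _ = _ := by ring
    rw [h1] at hε
    obtain ⟨H, hH⟩ : ∃ H : PowerSeries ℂ, H = PowerSeries.C c⁻¹ * G *
      rescale ((Real.log A : ℝ) : ℂ) (exp ℂ) * (PowerSeries.C (γ 1)⁻¹ * tay γ) := ⟨_, rfl⟩
    rw [← hH] at hε ⊢
    have hA' : (A : ℂ) ≠ 0 := by exact_mod_cast hA.ne'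
    have hcst : (A : ℂ) * γ 1 * c ≠ 0 := mul_ne_zero (mul_ne_zero hA' hγ1) hc
    have h2 : ∀ i : ℕ, (-1 : ℂ) ^ (m + i) * coeff i H = ε * coeff i H := by
      intro i
      have h3 := hε (m + i)
      rw [coeff_X_pow_mul', if_pos (Nat.le_add_right m i), Nat.add_sub_cancel_left,
        coeff_C_mul] at h3
      have h4 : (A : ℂ) * γ 1 * c * ((-1 : ℂ) ^ (m + i) * coeff i H) =
          (A : ℂ) * γ 1 * c * (ε * coeff i H) := by linear_combination h3
      exact mul_left_cancel₀ hcst h4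
    have hH0 : coeff 0 H ≠ 0 := by
      rw [hH]
      simp only [coeff_zero_eq_constantCoeff, map_mul, constantCoeff_C]
      have e1 : constantCoeff (tay γ) = γ 1 := by
        rw [← coeff_zero_eq_constantCoeff]
        exact hγ0
      have e2 : constantCoeff (rescale ((Real.log A : ℝ) : ℂ) (exp ℂ)) = 1 := by
        rw [← coeff_zero_eq_constantCoeff_apply, coeff_rescale, coeff_exp]
        simp
      have e3 : constantCoeff G ≠ 0 := by
        rw [← coeff_zero_eq_constantCoeff_apply]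
        exact hG0
      rw [e1, e2]
      field_simp
      exact div_ne_zero e3 hc
    have h5 : (-1 : ℂ) ^ m = ε := by
      have h6 := h2 0
      rw [add_zero] at h6
      exact mul_right_cancel₀ hH0 h6
    have h7 := h2 j
    rw [← h5, pow_add, hj.neg_one_pow] at h7
    have h8 : (-1 : ℂ) ^ m ≠ 0 := pow_ne_zero _ (by norm_num)
    have h9 : 2 * ((-1 : ℂ) ^ m * coeff j H) = 0 := by linear_combination -h7
    have h10 := (mul_eq_zero.1 h9).resolve_left two_ne_zero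
    exact (mul_eq_zero.1 h10).resolve_left h8

/-- The normalised data of a family. -/
theorem TwistFamily.nrm {real : Bool} {γ : ℂ → ℂ} {L : ℤ → ℂ → ℂ} {A : ℤ → ℝ} {c : ℤ → ℂ}
    (hF : TwistFamily real γ L A c) {r : ℤ → ℕ}
    (hQ : ∀ d ∈ Twists real, bsdQuot L r c {d} = 1) :
    ∃ (R : PowerSeries ℂ) (k : ℤ → ℕ) (F : ℤ → PowerSeries ℂ),
      Nrm real L r c (fun d => Real.log (A d)) R k F := by
  have h1 : ∀ d : ℤ, ∃ (m k : ℕ) (F : PowerSeries ℂ), d ∈ Twists real →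
      r d = m + k ∧ tay (L d) = PowerSeries.C (c d) * (X ^ m * F) ∧
      coeff k F = 1 ∧ coeff 0 F ≠ 0 ∧
      ∀ j, Odd j → coeff j (F * rescale ((Real.log (A d) : ℝ) : ℂ) (exp ℂ) *
        (PowerSeries.C (γ 1)⁻¹ * tay γ)) = 0 := by
    intro d
    by_cases hd : d ∈ Twists real
    · have hr : coeff (r d) (tay (L d)) = c d := by
        have h2 := hQ d hd
        rw [bsdQuot_eq (fun e he => by
          rw [Finset.mem_singleton.1 he]
          exact hF.an d hd)] at h2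
        simp only [Finset.sum_singleton, Finset.prod_singleton] at h2
        rwa [div_eq_one_iff_eq (hF.ne d hd)] at h2
      obtain ⟨m, k, F, h3⟩ := normal_form (hF.pos d hd) hF.gamma_an hF.gamma_ne (hF.an d hd)
        (hF.fe d hd) (hF.ne d hd) hr
      exact ⟨m, k, F, fun _ => h3⟩
    · exact ⟨0, 0, 0, fun h => absurd h hd⟩
  choose m k F h using h1
  refine ⟨PowerSeries.C (γ 1)⁻¹ * tay γ, k, F, ?_, ?_, ?_, ?_, ?_, ?_, ?_⟩
  · rw [coeff_C_mul, coeff_tay]
    simp [hF.gamma_ne]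
  · intro d hd
    have := (h d hd).1
    omega
  · intro d hd j hj
    exact (h d hd).2.2.2.2 j hj
  · intro d hd
    exact (h d hd).2.2.2.1
  · intro d hd
    exact (h d hd).2.2.1
  · intro C hC
    rw [bsdQuot_eq fun d hd => hF.an d (hC hd)]
    have h2 : ∏ d ∈ C, tay (L d) = PowerSeries.C (∏ d ∈ C, c d) *
        (X ^ (∑ d ∈ C, m d) * ∏ d ∈ C, F d) := by
      rw [map_prod, ← Finset.prod_pow_eq_pow_sum, ← Finset.prod_mul_distrib,
        ← Finset.prod_mul_distrib]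
      exact Finset.prod_congr rfl fun d hd => (h d (hC hd)).2.1
    have h3 : ∑ d ∈ C, r d = ∑ d ∈ C, k d + ∑ d ∈ C, m d := by
      rw [← Finset.sum_add_distrib]
      exact Finset.sum_congr rfl fun d hd => by rw [(h d (hC hd)).1, add_comm]
    have h4 : ∏ d ∈ C, c d ≠ 0 := Finset.prod_ne_zero_iff.2 fun d hd => hF.ne d (hC hd)
    rw [h2, h3, coeff_C_mul, coeff_X_pow_mul', if_pos (Nat.le_add_left _ _),
      Nat.add_sub_cancel_right, mul_div_cancel_left₀ _ h4]
  · intro d hd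
    obtain ⟨h2, h3, h4, h5, -⟩ := h d hd
    have hcoef : ∀ i, iteratedDeriv i (L d) 1 / (i.factorial : ℂ) =
        c d * (if m d ≤ i then coeff (i - m d) (F d) else 0) := by
      intro i
      rw [← coeff_tay, h3, coeff_C_mul, coeff_X_pow_mul']
    unfold BSD
    constructor
    · rintro ⟨h6, h7⟩
      by_contra hk
      have h8 : m d < r d := by omega
      have h9 := hcoef (m d)
      rw [h6 _ h8, zero_div, if_pos le_rfl, Nat.sub_self] at h9
      exact mul_ne_zero (hF.ne d hd) h5 h9.symm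
    · intro hk
      have h8 : m d = r d := by omega
      refine ⟨fun i hi => ?_, ?_⟩
      · have h9 := hcoef i
        rw [if_neg (by omega), mul_zero] at h9
        have h10 : (i.factorial : ℂ) ≠ 0 := by exact_mod_cast i.factorial_ne_zero
        exact (div_eq_zero_iff.1 h9).resolve_right h10
      · rw [hcoef, if_pos h8.le, h8, Nat.sub_self]
        rw [hk] at h4
        rw [h4, mul_one]

/-- The general theorem. -/
theorem general' (real : Bool) (γ : ℂ → ℂ) (L : ℤ → ℂ → ℂ) (A : ℤ → ℝ) (c : ℤ → ℂ)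
    (hF : TwistFamily real γ L A c) (r : ℤ → ℕ) (BB : Set ℤ)
    (hBB : ∀ b ∈ BB, b ∈ Twists real ∧ r b = 0) (hinf : BB.Infinite)
    (hQ : ∀ d ∈ Twists real, bsdQuot L r c {d} = 1)
    (hP : ∀ a ∈ Twists real, ∃ B : ℝ, ∀ b ∈ BB, b ≠ a → ‖bsdQuot L r c {a, b}‖ ≤ B) :
    (∀ M : ℕ, {d ∈ Twists real | r d ≤ M ∧ ¬ BSD (L d) (r d) (c d)}.Finite) ∧
    ((∀ n : ℕ, ∃ M : ℕ, ∀ d ∈ Twists real, d.natAbs.primeFactors.card ≤ n → r d ≤ M) →
      ∀ d ∈ Twists real, (∃ B : ℝ, ∀ C : Finset ℤ, ↑C ⊆ Twists real → IsCoset C → d ∈ C →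
        C.card ≤ 2 ^ r d → ‖bsdQuot L r c C‖ ≤ B) → BSD (L d) (r d) (c d)) := by
  obtain ⟨R, k, F, h⟩ := hF.nrm hQ
  refine h.general ?_ hBB hinf hP
  intro B
  refine (hF.fin (Real.exp B)).subset ?_
  rintro d ⟨hd, hd'⟩
  exact ⟨hd, by rwa [Real.log_le_iff_le_exp (hF.pos d hd)] at hd'⟩

theorem quot_of_bsd' (real : Bool) (L : ℤ → ℂ → ℂ) (r : ℤ → ℕ) (c : ℤ → ℂ)
    (hL : ∀ d ∈ Twists real, AnalyticAt ℂ (L d) 1) (hc : ∀ d ∈ Twists real, c d ≠ 0)
    (h : ∀ d ∈ Twists real, BSD (L d) (r d) (c d)) (C : Finset ℤ) (hC : ↑C ⊆ Twists real) :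
    bsdQuot L r c C = 1 := by
  have h1 : ∀ d : ℤ, ∃ G : PowerSeries ℂ, d ∈ Twists real →
      tay (L d) = X ^ r d * G ∧ coeff 0 G = c d := by
    intro d
    by_cases hd : d ∈ Twists real
    · obtain ⟨h2, h3⟩ := h d hd
      obtain ⟨G, hG⟩ : X ^ r d ∣ tay (L d) := by
        rw [X_pow_dvd_iff]
        intro i hi
        rw [coeff_tay, h2 i hi, zero_div]
      refine ⟨G, fun _ => ⟨hG, ?_⟩⟩
      rw [← coeff_tay, hG, coeff_X_pow_mul', if_pos le_rfl, Nat.sub_self] at h3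
      exact h3
    · exact ⟨0, fun h => absurd h hd⟩
  choose G hG using h1
  rw [bsdQuot_eq fun d hd => hL d (hC hd)]
  have h2 : ∏ d ∈ C, tay (L d) = X ^ (∑ d ∈ C, r d) * ∏ d ∈ C, G d := by
    rw [← Finset.prod_pow_eq_pow_sum, ← Finset.prod_mul_distrib]
    exact Finset.prod_congr rfl fun d hd => (hG d (hC hd)).1
  rw [h2, coeff_X_pow_mul', if_pos le_rfl, Nat.sub_self]
  have h3 : coeff 0 (∏ d ∈ C, G d) = ∏ d ∈ C, c d := by
    rw [coeff_zero_eq_constantCoeff_apply, map_prod]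
    refine Finset.prod_congr rfl fun d hd => ?_
    rw [← coeff_zero_eq_constantCoeff_apply]
    exact (hG d (hC hd)).2
  rw [h3, div_self]
  exact Finset.prod_ne_zero_iff.2 fun d hd => hc d (hC hd)

end MQV
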