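import Pool.Agent.W_92892c_h28.RLemma

/-!
A space of linear relations of large dimension is satisfied by types `e^{x z} G(z) E(z)` for few `x`.
-/

namespace W92892c

open Finset Matrix Filter Topology Polynomial

/-- `hh` as a polynomial in `x`. -/
noncomputable def hp (G : PowerSeries ℂ) (l j : ℕ) : ℂ[X] :=
  if 2 * j ≤ l then ∑ ab ∈ antidiagonal (l - 2 * j),
    C ((1 / (ab.1.factorial : ℂ)) * PowerSeries.coeff ab.2 G) * X ^ ab.1 else 0

lemma eval_hp (G : PowerSeries ℂ) (l j : ℕ) (x : ℂ) : (hp G l j).eval x = hh G l j x := by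
  unfold hp hh
  split_ifs with h
  · rw [coeff_hser, Polynomial.eval_finsetSum]
    refine Finset.sum_congr rfl fun ab _ => ?_
    simp only [Polynomial.eval_mul, Polynomial.eval_C, Polynomial.eval_pow, Polynomial.eval_X]
    ring
  · simp

lemma natDegree_hp (G : PowerSeries ℂ) (l j : ℕ) : (hp G l j).natDegree ≤ l - 2 * j := by
  unfold hp
  split_ifs with h
  · refine Polynomial.natDegree_sum_le_of_forall_le _ _ fun ab hab => ?_
    rw [HasAntidiagonal.mem_antidiagonal] at hab
    refine (Polynomial.natDegree_C_mul_X_pow_le _ _).trans ?_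
    omega
  · simp

lemma hp_zero (G : PowerSeries ℂ) (l j : ℕ) (h : l < 2 * j) : hp G l j = 0 := by
  unfold hp
  rw [if_neg (by omega)]

/-- The combinatorial bound. -/
lemma sum_bound (n t : ℕ) (d : Fin (n / 2 + 1) → Fin (n + 1)) (hd : StrictMono d)
    (htN : t ≤ n / 2 + 1) (hhigh : ∀ s : Fin t, (d (Fin.castLE htN s) : ℕ) < 2 * t) :
    ∑ s : Fin t, ((d (Fin.castLE htN s) : ℕ) - 2 * (s : ℕ)) ≤ (n + 1) / 2 * ((n + 1) / 2 + 1) / 2 := by
  have h1 : ∀ s : Fin t, (d (Fin.castLE htN s) : ℕ) ≤ (n + 1) / 2 + s := by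
    -- strictly increasing: `d s + (s' - s) ≤ d s'`
    have hstep : ∀ (m : ℕ) (s s' : Fin (n / 2 + 1)), (s : ℕ) + m = s' → (d s : ℕ) + m ≤ d s' := by
      intro m
      induction m with
      | zero =>
        intro s s' h
        have : s = s' := Fin.ext (by omega)
        subst this
        simp
      | succ m ih =>
        intro s s' h
        have hs'0 : 0 < (s' : ℕ) := by omega
        have h2 : (s : ℕ) + m = ((⟨(s' : ℕ) - 1, by have := s'.2; omega⟩ : Fin (n / 2 + 1)) : ℕ) := by
          show (s : ℕ) + m = (s' : ℕ) - 1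
          omega
        have h3 := ih s _ h2
        have h4 : d (⟨(s' : ℕ) - 1, by have := s'.2; omega⟩ : Fin (n / 2 + 1)) < d s' := hd (by
          show (s' : ℕ) - 1 < (s' : ℕ)
          omega)
        have h5 : ((d (⟨(s' : ℕ) - 1, by have := s'.2; omega⟩ : Fin (n / 2 + 1)) : Fin (n + 1)) : ℕ)
          < (d s' : ℕ) := h4
        omega
    intro s
    have hs := s.2
    rcases Nat.lt_or_ge ((n + 1) / 2) t with h | h
    · -- `t = (n+1)/2 + 1`, all the tops are used
      have h2 := hstep (n / 2 - (s : ℕ)) (Fin.castLE htN s) ⟨n / 2, by omega⟩ (by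
        show (s : ℕ) + (n / 2 - (s : ℕ)) = n / 2
        omega)
      have h3 := (d ⟨n / 2, by omega⟩).2
      omega
    · have h2 := hstep (t - 1 - (s : ℕ)) (Fin.castLE htN s) (Fin.castLE htN ⟨t - 1, by omega⟩) (by
        show (s : ℕ) + (t - 1 - (s : ℕ)) = t - 1
        omega)
      have h3 := hhigh ⟨t - 1, by omega⟩
      omega
  calc ∑ s : Fin t, ((d (Fin.castLE htN s) : ℕ) - 2 * (s : ℕ))
      ≤ ∑ s : Fin t, ((n + 1) / 2 - (s : ℕ)) := Finset.sum_le_sum fun s _ => by
        have := h1 s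
        omega
    _ = ∑ s ∈ range t, ((n + 1) / 2 - s) := (Finset.sum_range fun s => (n + 1) / 2 - s).symm
    _ ≤ ∑ s ∈ range ((n + 1) / 2 + 1), ((n + 1) / 2 - s) :=
        Finset.sum_le_sum_of_subset (Finset.range_subset_range.2 (by omega))
    _ = ∑ s ∈ range ((n + 1) / 2 + 1), s := by
        have h2 := Finset.sum_range_reflect (fun s => s) ((n + 1) / 2 + 1)
        rw [← h2]
        refine Finset.sum_congr rfl fun s _ => ?_
        omega
    _ = (n + 1) / 2 * ((n + 1) / 2 + 1) / 2 := by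
        rw [Finset.sum_range_id, Nat.add_sub_cancel, Nat.mul_comm]

theorem natDegree_det_le (t : ℕ) (P : Matrix (Fin t) (Fin t) ℂ[X]) (d : Fin t → ℕ)
    (h0 : ∀ s j : Fin t, d s < 2 * (j : ℕ) → P s j = 0)
    (h1 : ∀ s j : Fin t, (P s j).natDegree ≤ d s - 2 * (j : ℕ)) :
    P.det.natDegree ≤ ∑ s, d s - ∑ j : Fin t, 2 * (j : ℕ) := by
  rw [Matrix.det_apply]
  refine Polynomial.natDegree_sum_le_of_forall_le _ _ fun σ _ => ?_
  rcases eq_or_ne (∏ i, P (σ i) i) 0 with h | h
  · rw [h]
    simp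
  · have h2 : ∀ i : Fin t, 2 * (i : ℕ) ≤ d (σ i) := by
      intro i
      by_contra hlt
      exact h (Finset.prod_eq_zero (Finset.mem_univ i) (h0 _ _ (not_le.1 hlt)))
    have h3 : (∏ i, P (σ i) i).natDegree ≤ ∑ i : Fin t, (d (σ i) - 2 * (i : ℕ)) :=
      (Polynomial.natDegree_prod_le _ _).trans (Finset.sum_le_sum fun i _ => h1 _ _)
    have h4 : ∑ i : Fin t, (d (σ i) - 2 * (i : ℕ)) = ∑ s, d s - ∑ j : Fin t, 2 * (j : ℕ) := by
      have h5 : ∑ i : Fin t, (d (σ i) - 2 * (i : ℕ)) + ∑ j : Fin t, 2 * (j : ℕ) = ∑ s, d s := by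
        rw [← Finset.sum_add_distrib, ← Equiv.sum_comp σ d]
        exact Finset.sum_congr rfl fun i _ => Nat.sub_add_cancel (h2 i)
      omega
    rw [← h4]
    refine le_trans ?_ h3
    rcases Int.units_eq_one_or (Equiv.Perm.sign σ) with h6 | h6 <;> rw [h6] <;> simp

/-- **Few values of `x`.** -/
theorem count_types {G : PowerSeries ℂ} (hG : PowerSeries.coeff 0 G = 1) (n : ℕ)
    (Λ : Submodule ℂ (Fin (n + 1) → ℂ)) (hcon : n / 2 + 1 ≤ Module.finrank ℂ Λ) :
    ∃ D : Finset ℂ, D.card ≤ (n + 1) / 2 * ((n + 1) / 2 + 1) / 2 ∧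
      ∀ (x : ℂ) (F : PowerSeries ℂ), IsType G x F →
        (∀ φ ∈ Λ, ∑ l : Fin (n + 1), φ l * PowerSeries.coeff (l : ℕ) F = 0) → x ∈ D := by
  classical
  obtain ⟨d, φ, hd, hφΛ, hφd, hφtop⟩ := distinct_tops (N := n / 2 + 1) Λ hcon
  have hex : ∃ t, t = n / 2 + 1 ∨ ∃ h : t < n / 2 + 1, ((d ⟨t, h⟩ : Fin (n + 1)) : ℕ) < 2 * t :=
    ⟨n / 2 + 1, Or.inl rfl⟩
  set t := Nat.find hex with ht
  have htN : t ≤ n / 2 + 1 := Nat.find_min' hex (Or.inl rfl)
  have htspec := Nat.find_spec hex
  rw [← ht] at htspec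
  have ht0 : 0 < t := by
    rcases Nat.eq_zero_or_pos t with h0 | h0
    · rw [h0] at htspec
      rcases htspec with h | ⟨h, h'⟩ <;> omega
    · exact h0
  have hlow : ∀ s : Fin t, 2 * (s : ℕ) ≤ (d (Fin.castLE htN s) : ℕ) := by
    intro s
    have h1 := Nat.find_min hex (m := (s : ℕ)) (by rw [← ht]; exact s.2)
    push Not at h1
    exact h1.2 (lt_of_lt_of_le s.2 htN)
  have hhigh : ∀ s : Fin t, (d (Fin.castLE htN s) : ℕ) < 2 * t := by
    intro s
    rcases htspec with h | ⟨h, h'⟩
    · have := (d (Fin.castLE htN s)).2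
      omega
    · have h2 : d (Fin.castLE htN s) < d ⟨t, h⟩ := hd (by
        show (Fin.castLE htN s : ℕ) < t
        simp)
      have h3 : (d (Fin.castLE htN s) : ℕ) < (d ⟨t, h⟩ : ℕ) := h2
      omega
  -- the matrices
  let A : ℂ → Matrix (Fin t) (Fin t) ℂ := fun x => Matrix.of fun s j =>
    ∑ l : Fin (n + 1), φ (Fin.castLE htN s) l * hh G l j x
  let P : Matrix (Fin t) (Fin t) ℂ[X] := Matrix.of fun s j =>
    ∑ l : Fin (n + 1), C (φ (Fin.castLE htN s) l) * hp G l j
  have hPA : ∀ x, P.det.eval x = (A x).det := by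
    intro x
    have h1 : (Polynomial.evalRingHom x).mapMatrix P = A x := by
      ext s j
      simp only [RingHom.mapMatrix_apply, Matrix.map_apply, P, A, Matrix.of_apply,
        Polynomial.coe_evalRingHom, Polynomial.eval_finsetSum, Polynomial.eval_mul,
        Polynomial.eval_C, eval_hp]
    rw [← h1, ← RingHom.map_det]
    rfl
  have hroot : ∀ (x : ℂ) (F : PowerSeries ℂ), IsType G x F →
      (∀ φ ∈ Λ, ∑ l : Fin (n + 1), φ l * PowerSeries.coeff (l : ℕ) F = 0) → (A x).det = 0 := by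
    intro x F hF hΛ
    obtain ⟨E, hE, hE0, hFE⟩ := hF
    by_contra hne
    have hmul : (A x).mulVec (fun j : Fin t => PowerSeries.coeff (2 * (j : ℕ)) E) = 0 := by
      funext s
      simp only [Matrix.mulVec, dotProduct, A, Matrix.of_apply, Pi.zero_apply]
      rw [← hΛ (φ (Fin.castLE htN s)) (hφΛ _)]
      simp only [Finset.sum_mul]
      rw [Finset.sum_comm]
      refine Finset.sum_congr rfl fun l _ => ?_
      by_cases hl : d (Fin.castLE htN s) < l
      · rw [hφtop _ l hl]; simp
      · have hl' : (l : ℕ) ≤ (d (Fin.castLE htN s) : ℕ) := not_lt.1 hl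
        have h1 := coeff_type_eq G E x hE t l (lt_of_le_of_lt hl' (hhigh s))
        rw [hFE]
        unfold hser at h1
        rw [h1, Finset.mul_sum, Finset.sum_range]
        refine Finset.sum_congr rfl fun j _ => ?_
        ring
    have h0 := Matrix.eq_zero_of_mulVec_eq_zero hne hmul
    have h1 := congrFun h0 ⟨0, ht0⟩
    simp only [mul_zero, Pi.zero_apply] at h1
    rw [hE0] at h1
    exact one_ne_zero h1
  have hne : P.det ≠ 0 := by
    intro hP0
    let x : ℕ → ℂ := fun i => (i : ℂ)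
    have hx : Tendsto (fun i => ‖x i‖) atTop atTop := by
      simp only [x, Complex.norm_natCast]
      exact tendsto_natCast_atTop_atTop
    have hdetA : ∀ i, (A (x i)).det = 0 := fun i => by rw [← hPA, hP0, Polynomial.eval_zero]
    let B : ℕ → Matrix (Fin t) (Fin t) ℂ := fun i => Matrix.of fun s j =>
      ((x i) ^ (d (Fin.castLE htN s) : ℕ))⁻¹ * A (x i) s j * (x i) ^ (2 * (j : ℕ))
    have hdetB : ∀ i, (B i).det = 0 := by
      intro i
      have h1 : B i = Matrix.of fun (s j : Fin t) => (x i) ^ (2 * (j : ℕ)) *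
          (Matrix.of fun (s j : Fin t) =>
            ((x i) ^ (d (Fin.castLE htN s) : ℕ))⁻¹ * A (x i) s j) s j := by
        ext s j
        simp only [B, Matrix.of_apply]
        ring
      rw [h1, Matrix.det_mul_row, Matrix.det_mul_column, hdetA i, mul_zero, mul_zero]
    let C : Matrix (Fin t) (Fin t) ℂ := Matrix.of fun s j =>
      φ (Fin.castLE htN s) (d (Fin.castLE htN s)) *
        ((ent (((d (Fin.castLE htN s) : ℕ) : ℤ) - (2 * (j : ℕ) : ℕ)) : ℝ) : ℂ)
    have htend' : ∀ s j, Tendsto (fun i => B i s j) atTop (𝓝 (C s j)) := by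
      intro s j
      simp only [B, C, Matrix.of_apply, A]
      have hterm : ∀ l ∈ (Finset.univ : Finset (Fin (n + 1))), Tendsto
          (fun i => φ (Fin.castLE htN s) l *
            (((x i) ^ (d (Fin.castLE htN s) : ℕ))⁻¹ * hh G l j (x i) * (x i) ^ (2 * (j : ℕ)))) atTop
          (𝓝 (if l = d (Fin.castLE htN s) then φ (Fin.castLE htN s) (d (Fin.castLE htN s)) *
        ((ent (((d (Fin.castLE htN s) : ℕ) : ℤ) - (2 * (j : ℕ) : ℕ)) : ℝ) : ℂ) else 0)) := by
        intro l _
        by_cases hl : d (Fin.castLE htN s) < l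
        · rw [hφtop _ l hl, if_neg (ne_of_gt hl)]
          simp
        · have hl' : (l : ℕ) ≤ (d (Fin.castLE htN s) : ℕ) := not_lt.1 hl
          have h1 := (tendsto_hh hG hx (d (Fin.castLE htN s)) l j hl').const_mul
            (φ (Fin.castLE htN s) l)
          by_cases hld : l = d (Fin.castLE htN s)
          · rw [if_pos hld]
            have hld' : (l : ℕ) = (d (Fin.castLE htN s) : ℕ) := by rw [hld]
            rw [if_pos hld'] at h1
            rw [hld] at h1 ⊢
            exact h1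
          · rw [if_neg hld]
            have hld' : (l : ℕ) ≠ (d (Fin.castLE htN s) : ℕ) := fun h => hld (Fin.ext h)
            rw [if_neg hld', mul_zero] at h1
            exact h1
      have hsum := tendsto_finsetSum Finset.univ hterm
      rw [Finset.sum_ite_eq' Finset.univ (d (Fin.castLE htN s))] at hsum
      rw [if_pos (Finset.mem_univ _)] at hsum
      refine hsum.congr fun i => ?_
      rw [Finset.mul_sum, Finset.sum_mul]
      refine Finset.sum_congr rfl fun l _ => ?_
      ring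
    have htend : Tendsto B atTop (𝓝 C) :=
      tendsto_pi_nhds.2 fun s => tendsto_pi_nhds.2 fun j => htend' s j
    have hdetC : C.det = 0 := by
      have h1 : Tendsto (fun i => (B i).det) atTop (𝓝 C.det) :=
        ((Continuous.matrix_det continuous_id).tendsto C).comp htend
      simp only [hdetB] at h1
      exact tendsto_nhds_unique h1 tendsto_const_nhds |>.symm ▸ rfl
    have hCdet : C.det = (∏ s : Fin t, φ (Fin.castLE htN s) (d (Fin.castLE htN s))) *
        (((tpMat (fun s : Fin t => ((d (Fin.castLE htN s) : ℕ) : ℤ))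
          (fun j : Fin t => ((2 * (j : ℕ) : ℕ) : ℤ))).det : ℝ) : ℂ) := by
      have h1 : C = Matrix.of fun s j => φ (Fin.castLE htN s) (d (Fin.castLE htN s)) *
          ((Complex.ofRealHom.mapMatrix (tpMat (fun s : Fin t => ((d (Fin.castLE htN s) : ℕ) : ℤ))
          (fun j : Fin t => ((2 * (j : ℕ) : ℕ) : ℤ))).transpose) s j) := by
        ext s j
        simp [C, tpMat]
      rw [h1, Matrix.det_mul_column, ← RingHom.map_det, Matrix.det_transpose]
      rfl
    have hpos : 0 < (tpMat (fun s : Fin t => ((d (Fin.castLE htN s) : ℕ) : ℤ))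
          (fun j : Fin t => ((2 * (j : ℕ) : ℕ) : ℤ))).det := by
      apply tp_det_pos
      · intro a b hab
        have : d (Fin.castLE htN a) < d (Fin.castLE htN b) := hd (by
          show (Fin.castLE htN a : ℕ) < (Fin.castLE htN b : ℕ)
          simpa using hab)
        have h3 : (d (Fin.castLE htN a) : ℕ) < (d (Fin.castLE htN b) : ℕ) := this
        show ((d (Fin.castLE htN a) : ℕ) : ℤ) < ((d (Fin.castLE htN b) : ℕ) : ℤ)
        exact_mod_cast h3
      · intro a b hab
        have h3 : (a : ℕ) < (b : ℕ) := hab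
        show ((2 * (a : ℕ) : ℕ) : ℤ) < ((2 * (b : ℕ) : ℕ) : ℤ)
        exact_mod_cast (by omega : 2 * (a : ℕ) < 2 * (b : ℕ))
      · intro s
        show ((2 * (s : ℕ) : ℕ) : ℤ) ≤ ((d (Fin.castLE htN s) : ℕ) : ℤ)
        exact_mod_cast hlow s
    rw [hCdet] at hdetC
    rcases mul_eq_zero.1 hdetC with h | h
    · obtain ⟨s, _, hs⟩ := Finset.prod_eq_zero_iff.1 h
      exact hφd _ hs
    · exact hpos.ne' (by exact_mod_cast h)
  have hdeg : P.det.natDegree ≤ (n + 1) / 2 * ((n + 1) / 2 + 1) / 2 := by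
    refine le_trans ?_ (sum_bound n t d hd htN hhigh)
    have h1 := natDegree_det_le t P (fun s => (d (Fin.castLE htN s) : ℕ)) ?_ ?_
    · refine h1.trans (le_of_eq ?_)
      have h2 : ∑ s : Fin t, ((d (Fin.castLE htN s) : ℕ) - 2 * (s : ℕ)) +
          ∑ j : Fin t, 2 * (j : ℕ) = ∑ s : Fin t, (d (Fin.castLE htN s) : ℕ) := by
        rw [← Finset.sum_add_distrib]
        exact Finset.sum_congr rfl fun i _ => Nat.sub_add_cancel (hlow i)
      omega
    · intro s j hsj
      simp only [P, Matrix.of_apply]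
      refine Finset.sum_eq_zero fun l _ => ?_
      by_cases hl : d (Fin.castLE htN s) < l
      · rw [hφtop _ l hl]; simp
      · have hl' : (l : ℕ) ≤ (d (Fin.castLE htN s) : ℕ) := not_lt.1 hl
        rw [hp_zero G l j (by omega), mul_zero]
    · intro s j
      simp only [P, Matrix.of_apply]
      refine Polynomial.natDegree_sum_le_of_forall_le _ _ fun l _ => ?_
      by_cases hl : d (Fin.castLE htN s) < l
      · rw [hφtop _ l hl]; simp
      · have hl' : (l : ℕ) ≤ (d (Fin.castLE htN s) : ℕ) := not_lt.1 hl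
        refine (Polynomial.natDegree_C_mul_le _ _).trans ((natDegree_hp G l j).trans ?_)
        omega
  refine ⟨P.det.roots.toFinset, ?_, ?_⟩
  · exact (Multiset.toFinset_card_le _).trans ((Polynomial.card_roots' _).trans hdeg)
  · intro x F hF hΛ
    rw [Multiset.mem_toFinset, Polynomial.mem_roots hne, Polynomial.IsRoot.def, hPA]
    exact hroot x F hF hΛ

end W92892c
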