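import Pool.Agent.W_92892c_v15.Fam

namespace MQV

open PPM

theorem cond_inj {k k' : ℕ} (h : PPM.cond (-1) k = PPM.cond (-1) k') : k = k' := by
  unfold PPM.cond at h
  rw [if_pos rfl, if_pos rfl] at h
  have hsq : ∀ {a b : ℕ}, a ^ 2 = b ^ 2 → a = b := fun hab =>
    (Nat.pow_left_injective (n := 2) (by norm_num)) hab
  by_cases hk : Odd k <;> by_cases hk' : Odd k'
  · rw [if_pos hk, if_pos hk'] at h
    exact hsq (by omega)
  · rw [if_pos hk, if_neg hk'] at h
    obtain ⟨m, hm⟩ := Nat.not_odd_iff_even.1 hk'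
    exfalso
    have h1 : k ^ 2 = 2 * m ^ 2 := by
      rw [hm] at h
      nlinarith
    have h2 : Odd (k ^ 2) := hk.pow
    rw [h1] at h2
    exact (Nat.not_odd_iff_even.2 (even_two_mul _)) h2
  · rw [if_neg hk, if_pos hk'] at h
    obtain ⟨m, hm⟩ := Nat.not_odd_iff_even.1 hk
    exfalso
    have h1 : k' ^ 2 = 2 * m ^ 2 := by
      rw [hm] at h
      nlinarith
    have h2 : Odd (k' ^ 2) := hk'.pow
    rw [h1] at h2
    exact (Nat.not_odd_iff_even.2 (even_two_mul _)) h2
  · rw [if_neg hk, if_neg hk'] at h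
    exact hsq (by omega)

theorem famA_inj {d d' : ℤ} (hd : d ∈ Twists true) (hd' : d' ∈ Twists true)
    (h : famA d = famA d') : d = d' := by
  obtain ⟨h1, h2, h3⟩ := fam_toNat hd
  obtain ⟨h1', h2', h3'⟩ := fam_toNat hd'
  unfold famA at h
  have hpi : (2 * Real.pi) ≠ 0 := by positivity
  have h4 := (div_left_inj' hpi).1 h
  have h5 := (Real.sqrt_inj (Nat.cast_nonneg _) (Nat.cast_nonneg _)).1 h4
  have h6 : d.toNat = d'.toNat := cond_inj (by exact_mod_cast h5)
  rw [← h2, ← h2', h6]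

end MQV
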