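import Pool.Agent.W_92892c_v15.Grp
import Pool.Agent.W_92892c_h28.CoreB2

/-!
Assembly of the general theorem (MP_92892c_nt, team V15): from the normalised Taylor data to the
abstract core.
-/

namespace MQV

open Finset Filter PowerSeries

/-- Normalised Taylor data: `L_d = c_d X^(m_d) F_d`, `r_d = m_d + k_d`. -/
structure Nrm (real : Bool) (L : ℤ → ℂ → ℂ) (r : ℤ → ℕ) (c : ℤ → ℂ) (lam : ℤ → ℝ)
    (R : PowerSeries ℂ) (k : ℤ → ℕ) (F : ℤ → PowerSeries ℂ) : Prop where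
  R0 : coeff 0 R = 1
  rk : ∀ d ∈ Twists real, k d ≤ r d
  odd : ∀ d ∈ Twists real, ∀ j, Odd j → coeff j (F d * rescale (lam d : ℂ) (exp ℂ) * R) = 0
  zero : ∀ d ∈ Twists real, coeff 0 (F d) ≠ 0
  top : ∀ d ∈ Twists real, coeff (k d) (F d) = 1
  quot : ∀ C : Finset ℤ, ↑C ⊆ Twists real →
    bsdQuot L r c C = coeff (∑ d ∈ C, k d) (∏ d ∈ C, F d)
  bsd : ∀ d ∈ Twists real, BSD (L d) (r d) (c d) ↔ k d = 0

variable {real : Bool} {L : ℤ → ℂ → ℂ} {r : ℤ → ℕ} {c : ℤ → ℂ} {lam : ℤ → ℝ}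
  {R : PowerSeries ℂ} {k : ℤ → ℕ} {F : ℤ → PowerSeries ℂ}

lemma pair_subset {a b : ℤ} (ha : a ∈ Twists real) (hb : b ∈ Twists real) :
    (↑({a, b} : Finset ℤ) : Set ℤ) ⊆ Twists real := by
  intro x hx
  rcases mem_insert.1 (mem_coe.1 hx) with h | h
  · exact h ▸ ha
  · exact (mem_singleton.1 h) ▸ hb

theorem Nrm.data (h : Nrm real L r c lam R k F) (hlam : ∀ B : ℝ, {d ∈ Twists real | lam d ≤ B}.Finite)
    {BB : Set ℤ} (hBB : ∀ b ∈ BB, b ∈ Twists real ∧ r b = 0) (hinf : BB.Infinite)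
    (hP : ∀ a ∈ Twists real, ∃ B : ℝ, ∀ b ∈ BB, b ≠ a → ‖bsdQuot L r c {a, b}‖ ≤ B) :
    W92892c.DataB {a : Cls real | sqf a ∈ BB} R (fun a => lam (sqf a)) (fun a => F (sqf a))
      (fun a => k (sqf a)) := by
  refine ⟨fun a j hj => h.odd _ (sqf_mem a) j hj, fun a => h.zero _ (sqf_mem a),
    fun a => h.top _ (sqf_mem a), ?_, ?_, ?_, ?_⟩
  · rw [tendsto_atTop]
    intro b
    rw [eventually_cofinite]
    have h1 := (finite_iff (real := real) (fun d => lam d ≤ b)).1 (hlam b)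
    refine h1.subset ?_
    intro a ha
    exact (not_le.1 ha).le
  · have h1 := (infinite_iff (real := real) (fun d => d ∈ BB)).1 ?_
    · exact h1
    · refine hinf.mono ?_
      intro b hb
      exact ⟨(hBB b hb).1, hb⟩
  · intro a ha
    have h1 := h.rk _ (sqf_mem a)
    rw [(hBB _ ha).2] at h1
    omega
  · intro a
    obtain ⟨B, hB⟩ := hP (sqf a) (sqf_mem a)
    refine ⟨B, fun b hb hab => ?_⟩
    have h1 : sqf b ≠ sqf a := fun h2 => hab (sqf_injective h2)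
    have h2 := hB (sqf b) hb h1
    rw [h.quot _ (pair_subset (sqf_mem a) (sqf_mem b)), sum_pair h1.symm, prod_pair h1.symm] at h2
    exact h2

/-- First half of the general theorem, from the first half of the abstract core. -/
theorem Nrm.fin (h : Nrm real L r c lam R k F) {M : ℕ}
    (hcore : {a : Cls real | 1 ≤ k (sqf a) ∧ k (sqf a) ≤ M}.Finite) :
    {d ∈ Twists real | r d ≤ M ∧ ¬ BSD (L d) (r d) (c d)}.Finite := by
  rw [finite_iff]
  refine hcore.subset ?_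
  rintro a ⟨h1, h2⟩
  rw [h.bsd _ (sqf_mem a)] at h2
  exact ⟨Nat.one_le_iff_ne_zero.2 h2, (h.rk _ (sqf_mem a)).trans h1⟩

/-- Bounded quotients over the cosets `a V`. -/
theorem Nrm.cosets (h : Nrm real L r c lam R k F) {d : ℤ} {B : ℝ}
    (hB : ∀ C : Finset ℤ, ↑C ⊆ Twists real → IsCoset C → d ∈ C →
        C.card ≤ 2 ^ r d → ‖bsdQuot L r c C‖ ≤ B) (a : Cls real) (ha : sqf a = d)
    (V : Finset (Cls real)) (h0 : 0 ∈ V) (hadd : ∀ u ∈ V, ∀ v ∈ V, u + v ∈ V)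
    (hV : V.card ≤ 2 ^ k (sqf a)) :
    ‖coeff (∑ v ∈ V, k (sqf (a + v))) (∏ v ∈ V, F (sqf (a + v)))‖ ≤ B := by
  subst ha
  have h1 := hB (cst a V) (cst_subset a V) (isCoset_cst h0 hadd) (mem_cst h0) (by
    rw [card_cst]
    exact hV.trans (Nat.pow_le_pow_right (by norm_num) (h.rk _ (sqf_mem a))))
  rw [h.quot _ (cst_subset a V), sum_cst, prod_cst] at h1
  exact h1

/-- The general theorem, for normalised data. -/
theorem Nrm.general (h : Nrm real L r c lam R k F)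
    (hlam : ∀ B : ℝ, {d ∈ Twists real | lam d ≤ B}.Finite)
    {BB : Set ℤ} (hBB : ∀ b ∈ BB, b ∈ Twists real ∧ r b = 0) (hinf : BB.Infinite)
    (hP : ∀ a ∈ Twists real, ∃ B : ℝ, ∀ b ∈ BB, b ≠ a → ‖bsdQuot L r c {a, b}‖ ≤ B) :
    (∀ M : ℕ, {d ∈ Twists real | r d ≤ M ∧ ¬ BSD (L d) (r d) (c d)}.Finite) ∧
    ((∀ n : ℕ, ∃ M : ℕ, ∀ d ∈ Twists real, d.natAbs.primeFactors.card ≤ n → r d ≤ M) →
      ∀ d ∈ Twists real, (∃ B : ℝ, ∀ C : Finset ℤ, ↑C ⊆ Twists real → IsCoset C → d ∈ C →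
        C.card ≤ 2 ^ r d → ‖bsdQuot L r c C‖ ≤ B) → BSD (L d) (r d) (c d)) := by
  have hD := h.data hlam hBB hinf hP
  refine ⟨fun M => h.fin (W92892c.coreB_finite h.R0 hD M), ?_⟩
  intro hb d hd hC
  obtain ⟨B, hB⟩ := hC
  obtain ⟨a, ha⟩ := exists_sqf hd
  have h1 := W92892c.coreB_zero (D := Cls real) cls_add_self om om_add om_one_infinite h.R0 hD
    (fun n => by
      obtain ⟨M, hM⟩ := bdd_cls hb n
      exact ⟨M, fun a ha => (h.rk _ (sqf_mem a)).trans (hM a ha)⟩) a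
    ⟨B, fun V h0 hadd hV => h.cosets hB a ha V h0 hadd hV⟩
  rw [h.bsd d hd]
  rw [← ha]
  exact h1

end MQV
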