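import Pool.Agent.W_92892c_v15.Stmt

/-!
The squarefree integers as an elementary 2-group (MP_92892c_nt, team V15).
-/

namespace MQV

open Finset

/-- Generators of the group of square classes: the primes, and `0`, which stands for `-1`
(only if `real = false`). -/
abbrev Gen (real : Bool) : Type := {n : ℕ // n.Prime ∨ (n = 0 ∧ real = false)}

/-- The value of a generator. -/
def gen (n : ℕ) : ℤ := if n = 0 then -1 else (n : ℤ)

/-- The group of square classes. -/
abbrev Cls (real : Bool) : Type := Gen real →₀ ZMod 2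

/-- The squarefree integer of a square class. -/
noncomputable def sqf {real : Bool} (a : Cls real) : ℤ := ∏ i ∈ a.support, gen i.1

/-- The size of a square class. -/
noncomputable def om {real : Bool} (a : Cls real) : ℕ := a.support.card

variable {real : Bool}

/-- The generators in a class, as natural numbers. -/
noncomputable def im (a : Cls real) : Finset ℕ := a.support.image (fun i => i.1)

lemma mem_im {a : Cls real} {n : ℕ} : n ∈ im a ↔ ∃ h : n.Prime ∨ (n = 0 ∧ real = false),
    a ⟨n, h⟩ ≠ 0 := by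
  unfold im
  rw [mem_image]
  constructor
  · rintro ⟨⟨m, h⟩, h1, h2⟩
    subst h2
    exact ⟨h, Finsupp.mem_support_iff.1 h1⟩
  · rintro ⟨h, h1⟩
    exact ⟨⟨n, h⟩, Finsupp.mem_support_iff.2 h1, rfl⟩

lemma sqf_im (a : Cls real) : sqf a = ∏ n ∈ im a, gen n := by
  unfold sqf im
  rw [prod_image]
  intro x _ y _ h
  exact Subtype.ext h

lemma sqf_eq (a : Cls real) : sqf a = (if 0 ∈ im a then -1 else 1) *
    ((∏ p ∈ (im a).erase 0, p : ℕ) : ℤ) := by
  rw [sqf_im]
  have h1 : ∀ n ∈ (im a).erase 0, gen n = (n : ℤ) := by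
    intro n hn
    unfold gen
    rw [if_neg (ne_of_mem_erase hn)]
  by_cases h : 0 ∈ im a
  · rw [if_pos h, ← mul_prod_erase _ _ h, prod_congr rfl h1]
    unfold gen
    rw [if_pos rfl]
    push_cast
    rfl
  · rw [if_neg h, erase_eq_of_notMem h] at *
    rw [prod_congr rfl h1]
    push_cast
    ring

lemma prime_of_mem {a : Cls real} {p : ℕ} (h : p ∈ (im a).erase 0) : p.Prime := by
  obtain ⟨h1, h2⟩ := mem_erase.1 h
  obtain ⟨h3, _⟩ := mem_im.1 h2
  rcases h3 with h3 | h3
  · exact h3
  · exact absurd h3.1 h1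

lemma natAbs_sqf (a : Cls real) : (sqf a).natAbs = ∏ p ∈ (im a).erase 0, p := by
  rw [sqf_eq, Int.natAbs_mul, Int.natAbs_natCast]
  split_ifs <;> simp

lemma primeFactors_sqf (a : Cls real) : (sqf a).natAbs.primeFactors = (im a).erase 0 := by
  rw [natAbs_sqf]
  exact Nat.primeFactors_prod fun p hp => prime_of_mem hp

lemma sqf_neg_iff (a : Cls real) : sqf a < 0 ↔ 0 ∈ im a := by
  have h1 : (0 : ℤ) < ((∏ p ∈ (im a).erase 0, p : ℕ) : ℤ) := by
    have : 0 < ∏ p ∈ (im a).erase 0, p := prod_pos fun p hp => (prime_of_mem hp).pos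
    exact_mod_cast this
  rw [sqf_eq]
  by_cases h : 0 ∈ im a
  · rw [if_pos h]
    constructor
    · intro _
      exact h
    · intro _
      linarith
  · rw [if_neg h]
    constructor
    · intro h2
      linarith
    · intro h2
      exact absurd h2 h

lemma eq_of_im {a b : Cls real} (h : im a = im b) : a = b := by
  ext ⟨n, hn⟩
  have h1 : n ∈ im a ↔ n ∈ im b := by rw [h]
  have h2 : a ⟨n, hn⟩ ≠ 0 ↔ b ⟨n, hn⟩ ≠ 0 := by
    rw [mem_im, mem_im] at h1
    constructor
    · intro h3
      obtain ⟨_, h4⟩ := h1.1 ⟨hn, h3⟩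
      exact h4
    · intro h3
      obtain ⟨_, h4⟩ := h1.2 ⟨hn, h3⟩
      exact h4
  have h3 : ∀ x y : ZMod 2, (x ≠ 0 ↔ y ≠ 0) → x = y := by decide
  rw [h3 _ _ h2]

theorem sqf_injective : Function.Injective (sqf (real := real)) := by
  intro a b h
  apply eq_of_im
  have h1 : (im a).erase 0 = (im b).erase 0 := by
    rw [← primeFactors_sqf, ← primeFactors_sqf, h]
  have h2 : 0 ∈ im a ↔ 0 ∈ im b := by
    rw [← sqf_neg_iff, ← sqf_neg_iff, h]
  ext n
  by_cases hn : n = 0
  · subst hn
    exact h2
  · have h3 : n ∈ (im a).erase 0 ↔ n ∈ (im b).erase 0 := by rw [h1]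
    simpa [hn] using h3

theorem sqf_mem (a : Cls real) : sqf a ∈ Twists real := by
  refine ⟨?_, ?_⟩
  · rw [← Int.squarefree_natAbs, natAbs_sqf]
    refine squarefree_prod_of_pairwise_isCoprime (fun p hp q hq hpq => ?_)
      (fun p hp => (prime_of_mem hp).prime.squarefree)
    rw [Function.onFun, ← Nat.coprime_iff_isRelPrime]
    exact (Nat.coprime_primes (prime_of_mem hp) (prime_of_mem hq)).2 hpq
  · intro hr
    have h1 : sqf a ≠ 0 := by
      intro h
      have h2 := natAbs_sqf a
      rw [h, Int.natAbs_zero] at h2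
      have : 0 < ∏ p ∈ (im a).erase 0, p := prod_pos fun p hp => (prime_of_mem hp).pos
      omega
    have h2 : ¬ sqf a < 0 := by
      rw [sqf_neg_iff, mem_im]
      rintro ⟨h3 | h3, _⟩
      · exact Nat.not_prime_zero h3
      · rw [hr] at h3
        exact absurd h3.2 (by decide)
    omega

theorem exists_sqf {d : ℤ} (hd : d ∈ Twists real) : ∃ a : Cls real, sqf a = d := by
  classical
  obtain ⟨hsq, hpos⟩ := hd
  have hsq' : Squarefree d.natAbs := Int.squarefree_natAbs.2 hsq
  have hd0 : d ≠ 0 := hsq.ne_zero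
  obtain ⟨T, hT⟩ : ∃ T : Finset ℕ, T = d.natAbs.primeFactors ∪ (if d < 0 then {0} else ∅) :=
    ⟨_, rfl⟩
  have hTg : ∀ n ∈ T, n.Prime ∨ (n = 0 ∧ real = false) := by
    intro n hn
    rw [hT, mem_union] at hn
    rcases hn with hn | hn
    · exact Or.inl (Nat.prime_of_mem_primeFactors hn)
    · split_ifs at hn with h
      · right
        refine ⟨mem_singleton.1 hn, ?_⟩
        by_contra hr
        have : real = true := by simpa using hr
        have := hpos this
        omega
      · exact absurd hn (notMem_empty n)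
  obtain ⟨a, ha⟩ : ∃ a : Cls real, im a = T := by
    refine ⟨Finsupp.indicator (T.subtype (fun n => n.Prime ∨ (n = 0 ∧ real = false)))
      (fun _ _ => (1 : ZMod 2)), ?_⟩
    ext n
    rw [mem_im]
    constructor
    · rintro ⟨h, h1⟩
      by_contra h2
      apply h1
      rw [Finsupp.indicator_of_notMem]
      rw [mem_subtype]
      exact h2
    · intro hn
      refine ⟨hTg n hn, ?_⟩
      rw [Finsupp.indicator_of_mem (mem_subtype.2 hn)]
      exact one_ne_zero
  have h0 : 0 ∈ T ↔ d < 0 := by
    rw [hT, mem_union]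
    constructor
    · rintro (h | h)
      · exact absurd (Nat.prime_of_mem_primeFactors h) Nat.not_prime_zero
      · split_ifs at h with h1
        · exact h1
        · exact absurd h (notMem_empty _)
    · intro h
      right
      rw [if_pos h]
      exact mem_singleton_self _
  have hE : T.erase 0 = d.natAbs.primeFactors := by
    ext n
    rw [mem_erase, hT, mem_union]
    constructor
    · rintro ⟨h1, h2 | h2⟩
      · exact h2
      · split_ifs at h2
        · exact absurd (mem_singleton.1 h2) h1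
        · exact absurd h2 (notMem_empty _)
    · intro h
      exact ⟨(Nat.prime_of_mem_primeFactors h).ne_zero, Or.inl h⟩
  refine ⟨a, ?_⟩
  rw [sqf_eq, ha, hE, Nat.prod_primeFactors_of_squarefree hsq']
  by_cases h : d < 0
  · rw [if_pos (h0.2 h)]
    omega
  · rw [if_neg (fun h1 => h (h0.1 h1))]
    omega

theorem range_sqf : Set.range (sqf (real := real)) = Twists real := by
  ext d
  constructor
  · rintro ⟨a, rfl⟩
    exact sqf_mem a
  · intro h
    exact exists_sqf h

theorem cls_add_self (a : Cls real) : a + a = 0 := by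
  ext i
  have h3 : ∀ x : ZMod 2, x + x = 0 := by decide
  rw [Finsupp.add_apply, h3]
  rfl

theorem om_add (a b : Cls real) : om (a + b) ≤ om a + om b := by
  classical
  unfold om
  exact (card_le_card Finsupp.support_add).trans (card_union_le _ _)

theorem om_one_infinite : {v : Cls real | om v ≤ 1}.Infinite := by
  have h1 : Set.InjOn (fun p : ℕ => if h : p.Prime then
      (Finsupp.single (⟨p, Or.inl h⟩ : Gen real) (1 : ZMod 2)) else 0) {p | p.Prime} := by
    intro p hp q hq h
    have hp' : p.Prime := hp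
    have hq' : q.Prime := hq
    simp only [hp', hq', dif_pos] at h
    have h2 := Finsupp.single_left_injective (one_ne_zero : (1 : ZMod 2) ≠ 0) h
    exact congrArg Subtype.val h2
  refine (Nat.infinite_setOfPred_prime.image h1).mono ?_
  rintro _ ⟨p, hp, rfl⟩
  have hp' : p.Prime := hp
  simp only [hp', dif_pos]
  show om _ ≤ 1
  unfold om
  rw [Finsupp.support_single _ (one_ne_zero : (1 : ZMod 2) ≠ 0)]
  simp

theorem primeFactors_card_le (a : Cls real) : (sqf a).natAbs.primeFactors.card ≤ om a := by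
  rw [primeFactors_sqf]
  unfold om
  refine (card_le_card (erase_subset _ _)).trans ?_
  unfold im
  exact card_image_le

/-- Bounds in terms of the number of prime factors, transported to the classes. -/
theorem bdd_cls {r : ℤ → ℕ}
    (h : ∀ n : ℕ, ∃ M : ℕ, ∀ d ∈ Twists real, d.natAbs.primeFactors.card ≤ n → r d ≤ M) (n : ℕ) :
    ∃ M : ℕ, ∀ a : Cls real, om a ≤ n → r (sqf a) ≤ M := by
  obtain ⟨M, hM⟩ := h n
  exact ⟨M, fun a ha => hM _ (sqf_mem a) ((primeFactors_card_le a).trans ha)⟩

lemma sqf_pow (a : Cls real) {U : Finset (Gen real)} (hU : a.support ⊆ U) :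
    sqf a = ∏ i ∈ U, gen i.1 ^ (a i).val := by
  classical
  unfold sqf
  rw [← prod_subset hU]
  · refine prod_congr rfl fun i hi => ?_
    have h3 : ∀ x : ZMod 2, x ≠ 0 → x.val = 1 := by decide
    rw [h3 _ (Finsupp.mem_support_iff.1 hi), pow_one]
  · intro i _ hi
    rw [Finsupp.notMem_support_iff.1 hi]
    simp

theorem isSquare_four {a b c d : Cls real} (h : a + b + c + d = 0) :
    IsSquare (sqf a * sqf b * sqf c * sqf d) := by
  classical
  obtain ⟨U, hU⟩ : ∃ U : Finset (Gen real), U = a.support ∪ b.support ∪ c.support ∪ d.support :=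
    ⟨_, rfl⟩
  rw [sqf_pow a (U := U), sqf_pow b (U := U), sqf_pow c (U := U), sqf_pow d (U := U),
    ← prod_mul_distrib, ← prod_mul_distrib, ← prod_mul_distrib]
  · refine prod_induction _ IsSquare (fun _ _ => IsSquare.mul) IsSquare.one fun i _ => ?_
    rw [← pow_add, ← pow_add, ← pow_add]
    apply Even.isSquare_pow
    have h3 : ∀ w x y z : ZMod 2, w + x + y + z = 0 →
        Even (w.val + x.val + y.val + z.val) := by decide
    apply h3
    rw [← Finsupp.add_apply, ← Finsupp.add_apply, ← Finsupp.add_apply, h]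
    rfl
  all_goals
    intro i hi
    rw [hU]
    simp only [mem_union]
    tauto

theorem isCoset_pair (x y : ℤ) : IsCoset {x, y} := by
  refine ⟨⟨x, mem_insert_self _ _⟩, ?_⟩
  intro a ha b hb c hc
  have hx : x ∈ ({x, y} : Finset ℤ) := by simp
  have hy : y ∈ ({x, y} : Finset ℤ) := by simp
  rw [mem_insert, mem_singleton] at ha hb hc
  rcases ha with ha | ha <;> rcases hb with hb | hb <;> rcases hc with hc | hc <;>
    rw [ha, hb, hc]
  · exact ⟨x, hx, x * x, by ring⟩
  · exact ⟨y, hy, x * y, by ring⟩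
  · exact ⟨y, hy, x * y, by ring⟩
  · exact ⟨x, hx, x * y, by ring⟩
  · exact ⟨y, hy, x * y, by ring⟩
  · exact ⟨x, hx, x * y, by ring⟩
  · exact ⟨x, hx, x * y, by ring⟩
  · exact ⟨y, hy, y * y, by ring⟩

theorem isCoset_singleton (x : ℤ) : IsCoset {x} := by
  have h := isCoset_pair x x
  rwa [pair_eq_singleton] at h

/-- The coset `a V`, as a set of squarefree integers. -/
noncomputable def cst (a : Cls real) (V : Finset (Cls real)) : Finset ℤ :=
  V.image (fun v => sqf (a + v))

lemma cst_inj (a : Cls real) : Function.Injective (fun v : Cls real => sqf (a + v)) := by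
  intro u v h
  exact add_left_cancel (sqf_injective h)

theorem isCoset_cst {a : Cls real} {V : Finset (Cls real)} (h0 : 0 ∈ V)
    (hadd : ∀ u ∈ V, ∀ v ∈ V, u + v ∈ V) : IsCoset (cst a V) := by
  refine ⟨⟨sqf (a + 0), mem_image.2 ⟨0, h0, rfl⟩⟩, ?_⟩
  intro x hx y hy z hz
  obtain ⟨u, hu, rfl⟩ := mem_image.1 hx
  obtain ⟨v, hv, rfl⟩ := mem_image.1 hy
  obtain ⟨w, hw, rfl⟩ := mem_image.1 hz
  refine ⟨sqf (a + (u + v + w)), mem_image.2 ⟨_, hadd _ (hadd _ hu _ hv) _ hw, rfl⟩, ?_⟩
  apply isSquare_four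
  have h1 : a + u + (a + v) + (a + w) + (a + (u + v + w)) =
      (a + a) + (a + a) + (u + u) + (v + v) + (w + w) := by abel
  rw [h1]
  simp only [cls_add_self, add_zero]

theorem cst_subset (a : Cls real) (V : Finset (Cls real)) : ↑(cst a V) ⊆ Twists real := by
  intro x hx
  obtain ⟨u, _, rfl⟩ := mem_image.1 (mem_coe.1 hx)
  exact sqf_mem _

theorem card_cst (a : Cls real) (V : Finset (Cls real)) : (cst a V).card = V.card :=
  card_image_of_injective _ (cst_inj a)

theorem mem_cst {a : Cls real} {V : Finset (Cls real)} (h0 : 0 ∈ V) : sqf a ∈ cst a V :=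
  mem_image.2 ⟨0, h0, by rw [add_zero]⟩

theorem prod_cst {M : Type*} [CommMonoid M] (f : ℤ → M) (a : Cls real) (V : Finset (Cls real)) :
    ∏ d ∈ cst a V, f d = ∏ v ∈ V, f (sqf (a + v)) :=
  prod_image fun _ _ _ _ h => cst_inj a h

theorem sum_cst {M : Type*} [AddCommMonoid M] (f : ℤ → M) (a : Cls real)
    (V : Finset (Cls real)) : ∑ d ∈ cst a V, f d = ∑ v ∈ V, f (sqf (a + v)) :=
  sum_image fun _ _ _ _ h => cst_inj a h

/-- A set of twists is finite iff the corresponding set of classes is. -/
theorem finite_iff (p : ℤ → Prop) :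
    {d ∈ Twists real | p d}.Finite ↔ {a : Cls real | p (sqf a)}.Finite := by
  have h1 : {d ∈ Twists real | p d} = sqf (real := real) '' {a : Cls real | p (sqf a)} := by
    ext d
    constructor
    · rintro ⟨h, h2⟩
      obtain ⟨a, rfl⟩ := exists_sqf h
      exact ⟨a, h2, rfl⟩
    · rintro ⟨a, h, rfl⟩
      exact ⟨sqf_mem a, h⟩
  rw [h1, Set.finite_image_iff sqf_injective.injOn]

/-- A set of twists is infinite iff the corresponding set of classes is. -/
theorem infinite_iff (p : ℤ → Prop) :
    {d ∈ Twists real | p d}.Infinite ↔ {a : Cls real | p (sqf a)}.Infinite :=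
  (finite_iff p).not

end MQV
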